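import Pool.Agent.H6.CFF.Ent
import Pool.Agent.H6.STB.Clo

/-!
# A value which is few given the position with a contact coordinate is closed
-/

set_option autoImplicit false

namespace Pool.CFF

open Finset Real Filter
open Pool.Agent.H49.Ent Pool.Agent.H32.Dense Pool.STK Pool.MIC Pool.OWN68
open Pool.BFL (Pb)
open Pool.STB (V3 Bx cv mt Pb_mono Pb_or Pb_le2 glueLaw')
open Pool.STB6 (sol sol_spec cv_le CH_near ev_pow ev_log)

section

variable {Ω Λ Z Y 𝒟 : Type} [Fintype Ω] {p : Ω → ℝ} {L : Ω → Λ} {z : Ω → Z} {y : Ω → Y} {t : Ω → ℤ}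
  {D : Λ → 𝒟} {X : 𝒟 → V3} {x : Z → V3} {u : Z → ℝ} {φ : Y → V3 → ℝ} {a : Y → V3} {v : Z → ℤ}
  {M : ℕ} {K e η c : ℝ}

/-- The value along the chain. -/
theorem v_chain (hC : ConH p L z y t D X x u φ a v M K e η c) :
    Pb (Q4 p L z) (fun w => ¬ |(v (z (eB3 w)) : ℝ) - v (z (eA0 w))| ≤ 4 * K) ≤ 4 * c := by
  have g0 := (q4_law hC.law L z).nonneg
  have l0 : Pb (Q4 p L z) (fun w => ¬ |(v (z (eB0 w)) : ℝ) - v (z (eA0 w))| ≤ K) ≤ c :=
    le_of_eq_of_le (Marg.Pb_eq (q4_p0 hC.law L z)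
      (fun w => ¬ |(v (z w.1) : ℝ) - v (z w.2)| ≤ K)) hC.line
  have l1 : Pb (Q4 p L z) (fun w => ¬ |(v (z (eB1 w)) : ℝ) - v (z (eA1 w))| ≤ K) ≤ c :=
    le_of_eq_of_le (Marg.Pb_eq (q4_p1 hC.law L z)
      (fun w => ¬ |(v (z w.1) : ℝ) - v (z w.2)| ≤ K)) hC.line
  have l2 : Pb (Q4 p L z) (fun w => ¬ |(v (z (eB2 w)) : ℝ) - v (z (eA2 w))| ≤ K) ≤ c :=
    le_of_eq_of_le (Marg.Pb_eq (q4_p2 hC.law L z)
      (fun w => ¬ |(v (z w.1) : ℝ) - v (z w.2)| ≤ K)) hC.line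
  have l3 : Pb (Q4 p L z) (fun w => ¬ |(v (z (eB3 w)) : ℝ) - v (z (eA3 w))| ≤ K) ≤ c :=
    le_of_eq_of_le (Marg.Pb_eq (q4_p3 hC.law L z)
      (fun w => ¬ |(v (z w.1) : ℝ) - v (z w.2)| ≤ K)) hC.line
  have k1 := Pb_or g0 (fun w => ¬ |(v (z (eB0 w)) : ℝ) - v (z (eA0 w))| ≤ K)
    (fun w => ¬ |(v (z (eB1 w)) : ℝ) - v (z (eA1 w))| ≤ K)
  have k2 := Pb_or g0 (fun w => ¬ |(v (z (eB0 w)) : ℝ) - v (z (eA0 w))| ≤ K ∨
    ¬ |(v (z (eB1 w)) : ℝ) - v (z (eA1 w))| ≤ K)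
    (fun w => ¬ |(v (z (eB2 w)) : ℝ) - v (z (eA2 w))| ≤ K)
  have k3 := Pb_or g0 (fun w => (¬ |(v (z (eB0 w)) : ℝ) - v (z (eA0 w))| ≤ K ∨
    ¬ |(v (z (eB1 w)) : ℝ) - v (z (eA1 w))| ≤ K) ∨
    ¬ |(v (z (eB2 w)) : ℝ) - v (z (eA2 w))| ≤ K)
    (fun w => ¬ |(v (z (eB3 w)) : ℝ) - v (z (eA3 w))| ≤ K)
  have k4 := Pb_mono g0 (A := fun w => ¬ |(v (z (eB3 w)) : ℝ) - v (z (eA0 w))| ≤ 4 * K)
    (B := fun w => ((¬ |(v (z (eB0 w)) : ℝ) - v (z (eA0 w))| ≤ K ∨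
    ¬ |(v (z (eB1 w)) : ℝ) - v (z (eA1 w))| ≤ K) ∨
    ¬ |(v (z (eB2 w)) : ℝ) - v (z (eA2 w))| ≤ K) ∨
    ¬ |(v (z (eB3 w)) : ℝ) - v (z (eA3 w))| ≤ K) (fun w hw h => by
      by_contra hn
      refine h ?_
      obtain ⟨_, _, ⟨d1, d2, d3⟩⟩ := q4_pos hC.law L z hw
      simp only [not_or, not_not] at hn
      obtain ⟨⟨⟨n0, n1⟩, n2⟩, n3⟩ := hn
      rw [d1] at n1
      rw [d2] at n2
      rw [d3] at n3
      obtain ⟨a1, a2⟩ := abs_le.1 n0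
      obtain ⟨a3, a4⟩ := abs_le.1 n1
      obtain ⟨a5, a6⟩ := abs_le.1 n2
      obtain ⟨a7, a8⟩ := abs_le.1 n3
      exact abs_le.2 ⟨by linarith, by linarith⟩)
  linarith

/-- The floor of a bounded coordinate. -/
theorem fl_le {M : ℕ} {r : ℝ} (hr : |r| ≤ 1) : |⌊(M : ℝ) * r⌋| ≤ (M : ℤ) := by
  have h1 := abs_le.1 hr
  have hM : (0 : ℝ) ≤ M := Nat.cast_nonneg M
  rw [abs_le]
  constructor
  · refine Int.le_floor.2 ?_
    push_cast
    nlinarith [h1.1]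
  · have h2 : (⌊(M : ℝ) * r⌋ : ℝ) ≤ (M : ℝ) := (Int.floor_le _).trans (by nlinarith [h1.2])
    exact_mod_cast h2

/-- The entropy of the position. -/
theorem PP_le {W T : Type} [Fintype W] {q : W → ℝ} (hq : IsLaw q) (r : W → Z) (F : W → T)
    (x1 : ∀ r, Bx 1 (x r)) (u1 : ∀ r, |u r| ≤ 1) :
    CH q (fun w => PP M x u (r w)) F ≤ 4 * Real.log (2 * M + 1) := by
  have g0 := hq.nonneg
  have h1 := CH_T hq (fun w => cv M (x (r w)) 0) F (M := M) (fun w _ => cv_le (x1 _) 0)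
  have h2 := CH_T hq (fun w => cv M (x (r w)) 1) F (M := M) (fun w _ => cv_le (x1 _) 1)
  have h3 := CH_T hq (fun w => cv M (x (r w)) 2) F (M := M) (fun w _ => cv_le (x1 _) 2)
  have h4 := CH_T hq (fun w => ⌊(M : ℝ) * u (r w)⌋) F (M := M) (fun w _ => fl_le (u1 _))
  have k1 := CH_subadd g0 (fun w => cv M (x (r w)) 0)
    (fun w => (cv M (x (r w)) 1, (cv M (x (r w)) 2, ⌊(M : ℝ) * u (r w)⌋))) F
  have k2 := CH_subadd g0 (fun w => cv M (x (r w)) 1)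
    (fun w => (cv M (x (r w)) 2, ⌊(M : ℝ) * u (r w)⌋)) F
  have k3 := CH_subadd g0 (fun w => cv M (x (r w)) 2) (fun w => ⌊(M : ℝ) * u (r w)⌋) F
  have k4 := CH_mono_left g0 (X' := fun w => (cv M (x (r w)) 0, (cv M (x (r w)) 1,
    (cv M (x (r w)) 2, ⌊(M : ℝ) * u (r w)⌋)))) (X := fun w => PP M x u (r w)) (W := F)
    (fun w w' _ _ h => by
      have e1 := (Prod.ext_iff.1 h).1
      simp only [Prod.mk.injEq] at e1
      obtain ⟨e1, e2, e3, e4⟩ := e1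
      refine Prod.ext (funext fun i => ?_) e4
      fin_cases i
      exacts [e1, e2, e3])
  linarith

/-- **The bound.** -/
theorem con_bd (hC : ConH p L z y t D X x u φ a v M K e η c) (hM : 1 ≤ M) (hK : 1 ≤ K)
    (hη : 0 < η) (hη1 : η ≤ 1) (hc : 0 ≤ c) {ρ B : ℝ} (hρ : 0 < ρ) (hρ1 : ρ ≤ 1)
    (hB : Pb (Q4 p L z) (fun w => ¬ Gq M L z y t D X a η ρ w) ≤ B) :
    CH p (fun ω => v (z ω)) y ≤ 6 * Real.log 2 + Real.log (12 * K) +
      4 * c * Real.log (2 * M + 1) + 9 * e +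
      4 * Real.log (3 * (18300 * K / (ρ * η ^ 7))) + 5 * B * Real.log (2 * M + 1) := by
  have hq := q4_law hC.law L z
  have g0 := hq.nonneg
  have hM0 : (0 : ℝ) < M := by exact_mod_cast hM
  have hT : 0 ≤ Real.log (2 * M + 1) := Real.log_nonneg (by linarith)
  have h1 := tw_few hC hM hK hη hη1 hρ hρ1 hB
  have h2 := CH_le_add g0 (tw t) (fun w => PP M x u (z (eB3 w))) (gw L z D)
  have h3 := tw_full hC
  -- the three hypotheses
  have k1 := CH_near hq (fun w => v (z (eB3 w))) (fun w => (z (eA0 w), y (eB3 w)))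
    (fun W => (v W.1 : ℝ)) (fun w => |(v (z (eB3 w)) : ℝ) - v (z (eA0 w))| ≤ 4 * K)
    (A := 4 * K) (by linarith) (fun w _ => hC.vM _) (fun w _ h => h)
  have k1' : Pb (Q4 p L z) (fun w => ¬ |(v (z (eB3 w)) : ℝ) - v (z (eA0 w))| ≤ 4 * K) *
      Real.log (2 * M + 1) ≤ 4 * c * Real.log (2 * M + 1) :=
    mul_le_mul_of_nonneg_right (v_chain hC) hT
  have k2 : CH (Q4 p L z) (fun w => v (z (eB3 w)))
      (fun w => (PP M x u (z (eB3 w)), y (eB3 w))) ≤ e := by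
    have h := (q4_s hC.law L z).CH (fun ω => v (z ω)) (fun ω => (PP M x u (z ω), y ω))
    exact (le_of_eq h).trans hC.few
  have k3 : CH (Q4 p L z) (fun w => PP M x u (z (eB3 w))) (fun w => y (eB3 w)) ≤
      4 * Real.log (2 * M + 1) := PP_le hq (fun w => z (eB3 w)) _ hC.x1 hC.u1
  have k4 : CH (Q4 p L z) (fun w => PP M x u (z (eB3 w))) (gw L z D) ≤
      CH (Q4 p L z) (fun w => PP M x u (z (eB3 w))) (fun w => (z (eA0 w), y (eB3 w))) :=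
    CH_mono_cond g0 fun w w' hw hw' h => by
      obtain ⟨⟨a1, _⟩, _⟩ := q4_pos hC.law L z hw
      obtain ⟨⟨a1', _⟩, _⟩ := q4_pos hC.law L z hw'
      obtain ⟨_, _, _, _, y4⟩ := t_det hC hw
      obtain ⟨_, _, _, _, y4'⟩ := t_det hC hw'
      have hz : z (eA0 w) = z (eA0 w') := (Prod.ext_iff.1 h).1
      refine Prod.ext hz ?_
      show y (eB3 w) = y (eB3 w')
      rw [y4, y4', hC.yz _ _ a1 a1' hz]
  obtain ⟨R, hR⟩ : ∃ R : ℝ, R = 8 * e + (5 * Real.log 2 +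
    4 * Real.log (3 * (18300 * K / (ρ * η ^ 7))) + 5 * B * Real.log (2 * M + 1)) := ⟨_, rfl⟩
  have k5 := Pool.S2H13.few_free g0 (fun w => v (z (eB3 w))) (fun w => y (eB3 w))
    (fun w => z (eA0 w)) (fun w => PP M x u (z (eB3 w))) (e₁ := Real.log 2 +
      Real.log (3 * (4 * K)) + 4 * c * Real.log (2 * M + 1)) (e₂ := e) (e₃ := R)
    (L := 4 * Real.log (2 * M + 1)) (by linarith) k2 k3 (by rw [hR]; linarith)
  have k6 := (q4_s hC.law L z).CH (fun ω => v (z ω)) y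
  have k7 : CH p (fun ω => v (z ω)) y =
      CH (Q4 p L z) (fun w => v (z (eB3 w))) (fun w => y (eB3 w)) := k6.symm
  rw [k7]
  have e12 : Real.log (3 * (4 * K)) = Real.log (12 * K) := by
    congr 1
    ring
  rw [e12] at k5
  rw [hR] at k5
  linarith

end

/-- **A value which is few given the position with a contact coordinate, and nearly constant on the
lines, is closed.** -/
theorem con_few : ∀ ε : ℝ, 0 < ε → ∃ e₀ : ℝ, 0 < e₀ ∧ ∃ c : ℝ, 0 < c ∧ ∃ M₀ : ℕ, ∀ M : ℕ, M₀ ≤ M →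
    ∀ (K e η : ℝ), 1 ≤ K → K ≤ (M : ℝ) ^ e₀ → e ≤ e₀ * Real.log M → (M : ℝ) ^ (-e₀) ≤ η →
    η ≤ 1 → ∀ (Ω Λ Z Y 𝒟 : Type) [Fintype Ω] (p : Ω → ℝ) (L : Ω → Λ) (z : Ω → Z) (y : Ω → Y)
    (t : Ω → ℤ) (D : Λ → 𝒟) (X : 𝒟 → V3) (x : Z → V3) (u : Z → ℝ) (φ : Y → V3 → ℝ)
    (a : Y → V3) (v : Z → ℤ), ConH p L z y t D X x u φ a v M K e η c →
    CH p (fun ω => v (z ω)) y ≤ ε * Real.log M := by
  intro ε hε
  -- the rates
  obtain ⟨s, hs⟩ : ∃ s : ℝ, s = min 1 ε := ⟨_, rfl⟩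
  have hs0 : 0 < s := by rw [hs]; exact lt_min one_pos hε
  have hs1 : s ≤ 1 := by rw [hs]; exact min_le_left _ _
  have hsε : s ≤ ε := by rw [hs]; exact min_le_right _ _
  obtain ⟨ρ₀, hρ₀⟩ : ∃ ρ₀ : ℝ, ρ₀ = s / 100 := ⟨_, rfl⟩
  obtain ⟨c, hc⟩ : ∃ c : ℝ, c = s / 1000 := ⟨_, rfl⟩
  obtain ⟨e₀, he₀⟩ : ∃ e₀ : ℝ, e₀ = s ^ 2 / 100000 := ⟨_, rfl⟩
  have hs2 : s ^ 2 ≤ s := by nlinarith
  have hρ₀p : 0 < ρ₀ := by rw [hρ₀]; positivity
  have hcp : 0 < c := by rw [hc]; positivity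
  have he₀p : 0 < e₀ := by rw [he₀]; positivity
  have hρ₀1 : ρ₀ ≤ 1 / 100 := by rw [hρ₀]; linarith
  have hev : ∀ᶠ M : ℕ in atTop, (3 ≤ M ∧
      6 * Real.log 2 + Real.log 12 + 4 * Real.log 54900 + 10 / e₀ ≤ s / 10 * Real.log M) ∧
      (1 : ℝ) * (M : ℝ) ^ (0 : ℝ) ≤ (M : ℝ) ^ (1 - ρ₀) :=
    ((eventually_ge_atTop 3).and (ev_log _ _ (by positivity))).and (ev_pow _ _ _ (by linarith))
  obtain ⟨M₀, hM₀⟩ := eventually_atTop.1 hev
  refine ⟨e₀, he₀p, c, hcp, M₀, ?_⟩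
  intro M hMM K e η hK hK2 he hη hη1 Ω Λ Z Y 𝒟 _ p L z y t D X x u φ a v hC
  obtain ⟨⟨hM3, hlogM⟩, hp1⟩ := hM₀ M hMM
  have hM3' : (3 : ℝ) ≤ M := by exact_mod_cast hM3
  have hMp : (0 : ℝ) < M := by linarith
  have hM1 : (1 : ℝ) < M := by linarith
  have hlM : 0 < Real.log M := Real.log_pos hM1
  have hηp : 0 < η := (Real.rpow_pos_of_pos hMp _).trans_le hη
  have hl2 : 0 < Real.log 2 := Real.log_pos (by norm_num)
  have hl12 : 0 < Real.log 12 := Real.log_pos (by norm_num)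
  have hl5 : 0 < Real.log 54900 := Real.log_pos (by norm_num)
  have h10 : 0 < 10 / e₀ := by positivity
  -- the data
  obtain ⟨ρ, hρ⟩ : ∃ ρ : ℝ, ρ = (M : ℝ) ^ (-ρ₀) := ⟨_, rfl⟩
  have hρp : 0 < ρ := by rw [hρ]; exact Real.rpow_pos_of_pos hMp _
  have hρ1 : ρ < 1 := by rw [hρ]; exact Real.rpow_lt_one_of_one_lt_of_neg hM1 (by linarith)
  have hρM : 1 ≤ ρ * M := by
    rw [Real.rpow_zero, mul_one] at hp1
    refine hp1.trans (le_of_eq ?_)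
    rw [hρ]
    nth_rewrite 3 [← Real.rpow_one (M : ℝ)]
    rw [← Real.rpow_add hMp]
    congr 1
    ring
  have hlρ : Real.log (1 / ρ) = ρ₀ * Real.log M := by
    rw [one_div, Real.log_inv, hρ, Real.log_rpow hMp]
    ring
  have hB := Gq_bad hC hηp (by omega : 1 ≤ M) hρp hρ1 hρM
  have hbd := con_bd hC (by omega : 1 ≤ M) hK hηp hη1 hcp.le hρp hρ1.le hB
  -- the logarithm
  have hT : Real.log (2 * M + 1) ≤ 2 * Real.log M := by
    have h1 : Real.log ((M : ℝ) ^ 2) = 2 * Real.log M := by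
      rw [Real.log_pow]
      norm_num
    rw [← h1]
    exact Real.log_le_log (by positivity) (by nlinarith)
  have hT0 : 0 ≤ Real.log (2 * M + 1) := Real.log_nonneg (by linarith)
  have hlK : Real.log K ≤ e₀ * Real.log M := by
    have := Real.log_le_log (by linarith) hK2
    rwa [Real.log_rpow hMp] at this
  have hlη : -(e₀ * Real.log M) ≤ Real.log η := by
    have := Real.log_le_log (Real.rpow_pos_of_pos hMp _) hη
    rw [Real.log_rpow hMp] at this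
    linarith
  have t1 : Real.log (12 * K) ≤ Real.log 12 + e₀ * Real.log M := by
    rw [Real.log_mul (by norm_num) (by linarith)]
    linarith
  have t2 : Real.log (3 * (18300 * K / (ρ * η ^ 7))) ≤ Real.log 54900 + (8 * e₀ + ρ₀) *
      Real.log M := by
    have e1 : 3 * (18300 * K / (ρ * η ^ 7)) = 54900 * K / (ρ * η ^ 7) := by
      field_simp
      norm_num
    rw [e1, Real.log_div (by positivity) (by positivity), Real.log_mul (by norm_num) (by linarith),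
      Real.log_mul hρp.ne' (by positivity), Real.log_pow, hρ, Real.log_rpow hMp]
    push_cast
    linarith
  -- the probability
  have hlog2 : Real.log 2 ≤ e₀ * Real.log M := by
    have h1 : 10 / e₀ ≤ s / 10 * Real.log M := by linarith
    have h2 : 10 ≤ s / 10 * Real.log M * e₀ := by
      rw [div_le_iff₀ he₀p] at h1
      exact h1
    have h3 : Real.log 2 ≤ 1 := by
      have := Real.log_two_lt_d9
      linarith
    nlinarith [mul_pos he₀p hlM]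
  have t3 : (8 * e + Real.log 2) / Real.log (1 / ρ) ≤ 9 * e₀ / ρ₀ := by
    rw [hlρ, div_le_div_iff₀ (by positivity) hρ₀p]
    have h1 : 8 * e + Real.log 2 ≤ 9 * (e₀ * Real.log M) := by linarith
    calc (8 * e + Real.log 2) * ρ₀ ≤ 9 * (e₀ * Real.log M) * ρ₀ :=
          mul_le_mul_of_nonneg_right h1 hρ₀p.le
      _ = 9 * e₀ * (ρ₀ * Real.log M) := by ring
  have t4 : 9 * e₀ / ρ₀ = 9 * s / 1000 := by
    rw [he₀, hρ₀]
    field_simp
    ring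
  rw [t4] at t3
  have t5 : 5 * (6 * c + (8 * e + Real.log 2) / Real.log (1 / ρ)) * Real.log (2 * M + 1) ≤
      5 * (6 * c + 9 * s / 1000) * (2 * Real.log M) := by
    have h1 : 5 * (6 * c + (8 * e + Real.log 2) / Real.log (1 / ρ)) ≤
        5 * (6 * c + 9 * s / 1000) := by linarith
    calc _ ≤ 5 * (6 * c + 9 * s / 1000) * Real.log (2 * M + 1) :=
          mul_le_mul_of_nonneg_right h1 hT0
      _ ≤ _ := mul_le_mul_of_nonneg_left hT (by positivity)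
  have t6 : 4 * c * Real.log (2 * M + 1) ≤ 4 * c * (2 * Real.log M) :=
    mul_le_mul_of_nonneg_left hT (by positivity)
  have t7 : CH p (fun ω => v (z ω)) y ≤ (s / 10 * Real.log M) + (e₀ + 8 * c + 9 * e₀ +
      4 * (8 * e₀ + ρ₀) + 10 * (6 * c + 9 * s / 1000)) * Real.log M := by
    linarith
  have t8 : e₀ + 8 * c + 9 * e₀ + 4 * (8 * e₀ + ρ₀) + 10 * (6 * c + 9 * s / 1000) ≤
      s / 2 := by
    rw [hc, he₀, hρ₀]
    nlinarith
  have t9 : (e₀ + 8 * c + 9 * e₀ + 4 * (8 * e₀ + ρ₀) + 10 * (6 * c + 9 * s / 1000)) *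
      Real.log M ≤ s / 2 * Real.log M := mul_le_mul_of_nonneg_right t8 hlM.le
  have t10 : s * Real.log M ≤ ε * Real.log M := mul_le_mul_of_nonneg_right hsε hlM.le
  have t11 : 0 < s * Real.log M := mul_pos hs0 hlM
  linarith

end Pool.CFF
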