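import Pool.Agent.H6.CFF.Fib
import Pool.Agent.H98.STB.Gp

/-!
# General position of the directions of a chain
-/

set_option autoImplicit false

namespace Pool.CFF

open Finset Real
open Pool.STB (V3 Bx mt det_cross)

/-- `v` is near the plane of `h`. -/
def Bad (η : ℝ) (h v : V3) : Prop := ∃ j, h j ≠ 0 ∧ |∑ i, h i * v i| ≤ η * |h j|

theorem not_bad {η : ℝ} {h v : V3} (hb : ¬ Bad η h v) (j : Fin 3) (hj : h j ≠ 0) :
    η * |h j| < |∑ i, h i * v i| := by
  by_contra hc
  exact hb ⟨j, hj, not_lt.1 hc⟩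

/-- The first covector. -/
def c1 : V3 := ![1, 0, 0]

/-- The second covector. -/
def c2 (v : V3) : V3 := ![-v 1, v 0, 0]

/-- The cross product. -/
def cx (v w : V3) : V3 := ![v 1 * w 2 - v 2 * w 1, v 2 * w 0 - v 0 * w 2, v 0 * w 1 - v 1 * w 0]

open Classical in
/-- A covector which vanishes on `a`. -/
noncomputable def ha (η : ℝ) (a : V3) : V3 :=
  if η ≤ |a 0| then ![-a 1, a 0, 0] else if η ≤ |a 1| then ![0, -a 2, a 1] else ![a 2, 0, -a 0]

theorem sum_cx (v w x : V3) : ∑ i, cx v w i * x i =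
    (v 1 * w 2 - v 2 * w 1) * x 0 + (v 2 * w 0 - v 0 * w 2) * x 1 +
      (v 0 * w 1 - v 1 * w 0) * x 2 := by
  rw [Fin.sum_univ_three]
  rfl

theorem ar_cx (a v w : V3) : ar a v w = ∑ i, cx a v i * w i := by
  rw [sum_cx]
  unfold ar
  ring

theorem good_det {η : ℝ} (hη : 0 < η) {x y v : V3} (h1 : ¬ Bad η c1 x) (h2 : ¬ Bad η (c2 x) y)
    (h3 : ¬ Bad η (cx x y) v) : η ^ 3 ≤ |(mt ![x, y, v]).det| := by
  have a1 : η < |x 0| := by
    have h := not_bad h1 0 (by unfold c1; norm_num)
    rw [Fin.sum_univ_three] at h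
    unfold c1 at h
    simpa using h
  have a2 : η * |x 0| < |x 0 * y 1 - x 1 * y 0| := by
    have h := not_bad h2 1 (by
      intro h0
      have h0' : x 0 = 0 := h0
      rw [h0', abs_zero] at a1
      linarith)
    rw [Fin.sum_univ_three] at h
    have e1 : c2 x 0 * y 0 + c2 x 1 * y 1 + c2 x 2 * y 2 = x 0 * y 1 - x 1 * y 0 := by
      unfold c2
      simp
      ring
    rw [e1] at h
    exact h
  have a3 : η * |x 0 * y 1 - x 1 * y 0| < |(mt ![x, y, v]).det| := by
    rw [det_cross]
    have h := not_bad h3 2 (by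
      intro h0
      have h0' : x 0 * y 1 - x 1 * y 0 = 0 := h0
      rw [h0', abs_zero] at a2
      have : 0 ≤ η * |x 0| := by positivity
      linarith)
    rw [sum_cx] at h
    exact h
  calc η ^ 3 = η * (η * η) := by ring
    _ ≤ η * (η * |x 0|) := by gcongr
    _ ≤ η * |x 0 * y 1 - x 1 * y 0| := by gcongr
    _ ≤ |(mt ![x, y, v]).det| := a3.le

theorem good_ar {η : ℝ} (hη : 0 < η) {a x y : V3} (haη : ∃ i, η ≤ |a i|)
    (h1 : ¬ Bad η (ha η a) x) (h2 : ¬ Bad η (cx a x) y) : η ^ 3 ≤ |ar a x y| := by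
  have key : ∃ j, η * η < |cx a x j| := by
    by_cases c0 : η ≤ |a 0|
    · refine ⟨2, ?_⟩
      have hh : ha η a = ![-a 1, a 0, 0] := by unfold ha; rw [if_pos c0]
      rw [hh] at h1
      have h := not_bad h1 1 (by
        intro h0
        have h0' : a 0 = 0 := h0
        rw [h0', abs_zero] at c0
        linarith)
      rw [Fin.sum_univ_three] at h
      have e1 : (![-a 1, a 0, 0] : V3) 0 * x 0 + (![-a 1, a 0, 0] : V3) 1 * x 1 +
          (![-a 1, a 0, 0] : V3) 2 * x 2 = cx a x 2 := by
        unfold cx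
        simp
        ring
      rw [e1] at h
      refine lt_of_le_of_lt ?_ h
      exact mul_le_mul_of_nonneg_left c0 hη.le
    · by_cases d0 : η ≤ |a 1|
      · refine ⟨0, ?_⟩
        have hh : ha η a = ![0, -a 2, a 1] := by unfold ha; rw [if_neg c0, if_pos d0]
        rw [hh] at h1
        have h := not_bad h1 2 (by
          intro h0
          have h0' : a 1 = 0 := h0
          rw [h0', abs_zero] at d0
          linarith)
        rw [Fin.sum_univ_three] at h
        have e1 : (![0, -a 2, a 1] : V3) 0 * x 0 + (![0, -a 2, a 1] : V3) 1 * x 1 +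
            (![0, -a 2, a 1] : V3) 2 * x 2 = cx a x 0 := by
          unfold cx
          simp
          ring
        rw [e1] at h
        refine lt_of_le_of_lt ?_ h
        exact mul_le_mul_of_nonneg_left d0 hη.le
      · refine ⟨1, ?_⟩
        have f0 : η ≤ |a 2| := by
          obtain ⟨i, hi⟩ := haη
          fin_cases i
          · exact absurd hi c0
          · exact absurd hi d0
          · exact hi
        have hh : ha η a = ![a 2, 0, -a 0] := by unfold ha; rw [if_neg c0, if_neg d0]
        rw [hh] at h1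
        have h := not_bad h1 0 (by
          intro h0
          have h0' : a 2 = 0 := h0
          rw [h0', abs_zero] at f0
          linarith)
        rw [Fin.sum_univ_three] at h
        have e1 : (![a 2, 0, -a 0] : V3) 0 * x 0 + (![a 2, 0, -a 0] : V3) 1 * x 1 +
            (![a 2, 0, -a 0] : V3) 2 * x 2 = cx a x 1 := by
          unfold cx
          simp
          ring
        rw [e1] at h
        refine lt_of_le_of_lt ?_ h
        exact mul_le_mul_of_nonneg_left f0 hη.le
  obtain ⟨j, hj⟩ := key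
  have h := not_bad h2 j (by
    intro h0
    rw [h0, abs_zero] at hj
    have : 0 ≤ η * η := by positivity
    linarith)
  rw [ar_cx]
  calc η ^ 3 = η * (η * η) := by ring
    _ ≤ η * |cx a x j| := mul_le_mul_of_nonneg_left hj.le hη.le
    _ ≤ _ := h.le

theorem good_al {η : ℝ} (hη : 0 < η) {x y v w : V3} (hx : Bx 1 x) (hd : (mt ![x, y, v]).det ≠ 0)
    {α0 α1 α2 : ℝ} (hα : α0 • x + α1 • y + α2 • v = w) (h : ¬ Bad η (cx y v) w) :
    η / 3 ≤ |α0| := by
  have e0 : (mt ![x, y, v]).det = ∑ i, cx y v i * x i := by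
    rw [det_cross, sum_cx]
    ring
  obtain ⟨j, _, hj⟩ := Finset.exists_max_image (univ : Finset (Fin 3)) (fun i => |cx y v i|)
    Finset.univ_nonempty
  have hj' : ∀ i, |cx y v i| ≤ |cx y v j| := fun i => hj i (Finset.mem_univ i)
  have hb : |∑ i, cx y v i * x i| ≤ 3 * |cx y v j| := by
    refine (Finset.abs_sum_le_sum_abs _ _).trans ?_
    refine (Finset.sum_le_card_nsmul _ _ |cx y v j| fun i _ => ?_).trans (le_of_eq ?_)
    · rw [abs_mul]
      calc |cx y v i| * |x i| ≤ |cx y v j| * 1 :=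
            mul_le_mul (hj' i) (hx i) (abs_nonneg _) (abs_nonneg _)
        _ = |cx y v j| := mul_one _
    · rw [Finset.card_univ, Fintype.card_fin, nsmul_eq_mul]
      norm_num
  have hne : cx y v j ≠ 0 := by
    intro h0
    rw [h0, abs_zero, mul_zero] at hb
    rw [e0] at hd
    exact hd (abs_eq_zero.1 (le_antisymm hb (abs_nonneg _)))
  have hpos : 0 < |cx y v j| := abs_pos.2 hne
  have h1 := not_bad h j hne
  have e1 : ∑ i, cx y v i * w i = α0 * ∑ i, cx y v i * x i := by
    rw [← hα, sum_cx, sum_cx]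
    simp only [Pi.add_apply, Pi.smul_apply, smul_eq_mul]
    ring
  rw [e1, abs_mul] at h1
  have h2 := mul_le_mul_of_nonneg_left hb (abs_nonneg α0)
  have h3 : η * |cx y v j| < |α0| * 3 * |cx y v j| := by linarith
  have h4 := lt_of_mul_lt_mul_right h3 hpos.le
  linarith

end Pool.CFF
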