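import Pool.Agent.H6.CFF.Hop
import Pool.Agent.H6.CFF.Gd

/-!
# A chain of four contact lines

`ConH`: the data of the lines with a contact coordinate and a value. `Q4`: the chain of four lines.
-/

set_option autoImplicit false

namespace Pool.CFF

open Finset Real
open Pool.Agent.H49.Ent Pool.Agent.H32.Dense Pool.STK Pool.MIC
open Pool.BFL (Pb)
open Pool.STB (V3 Bx cv mt Pb_mono Pb_or Pb_le2 glueLaw')

section

variable {Ω Λ Z Y 𝒟 : Type} [Fintype Ω]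

/-- **The data of the lines with a contact coordinate and a value.** `L`: the line with its window;
`z`: the record with the time `t`; `y`: the closed record of the window; `D`: the data of a line (its
direction); `x`, `u`: the position and the contact coordinate; `a`: the kernel of the skew form; `v`:
the value at a record, nearly constant on the lines and few given the position. -/
structure ConH (p : Ω → ℝ) (L : Ω → Λ) (z : Ω → Z) (y : Ω → Y) (t : Ω → ℤ) (D : Λ → 𝒟)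
    (X : 𝒟 → V3) (x : Z → V3) (u : Z → ℝ) (φ : Y → V3 → ℝ) (a : Y → V3) (v : Z → ℤ) (M : ℕ)
    (K e η c : ℝ) : Prop where
  law : IsLaw p
  yL : ∀ ω ω', 0 < p ω → 0 < p ω' → L ω = L ω' → y ω = y ω'
  yz : ∀ ω ω', 0 < p ω → 0 < p ω' → z ω = z ω' → y ω = y ω'
  tz : ∀ ω ω', 0 < p ω → 0 < p ω' → z ω = z ω' → t ω = t ω'
  tM : ∀ ω, 0 < p ω → |t ω| ≤ (M : ℤ)
  full : Real.log (2 * M + 1) - e ≤ CH p t L
  free : CH p (fun ω => D (L ω)) y - e ≤ CH p (fun ω => D (L ω)) z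
  X1 : ∀ d, Bx 1 (X d)
  x1 : ∀ r, Bx 1 (x r)
  u1 : ∀ r, |u r| ≤ 1
  a1 : ∀ b, Bx 1 (a b)
  aη : ∀ ω, 0 < p ω → ∃ i, η ≤ |a (y ω) i|
  φK : ∀ ω, 0 < p ω → ∀ q q', Bx 1 q → Bx 1 q' → ∀ r, Bx r (q - q') →
    |φ (y ω) q - φ (y ω) q'| ≤ K * r
  pos : ∀ ω ω', 0 < p ω → 0 < p ω' → L ω = L ω' →
    Bx (K / M) (x (z ω') - x (z ω) - (((t ω' : ℝ) - t ω) / M) • X (D (L ω)))
  con : ∀ ω ω', 0 < p ω → 0 < p ω' → L ω = L ω' →
    |u (z ω') - u (z ω) - (φ (y ω) (x (z ω')) - φ (y ω) (x (z ω))) -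
      (((t ω' : ℝ) - t ω) / M) * ar (a (y ω)) (x (z ω)) (X (D (L ω)))| ≤ K / M
  gp : ∀ H : Z → V3, (∀ r, Bx 1 (H r) ∧ ∃ i, |H r i| = 1) →
    Pb p (fun ω => |∑ i, H (z ω) i * X (D (L ω)) i| ≤ η) ≤ c
  vM : ∀ r, |v r| ≤ (M : ℤ)
  line : Pb (glue p p L L) (fun w => ¬ |(v (z w.1) : ℝ) - v (z w.2)| ≤ K) ≤ c
  few : CH p (fun ω => v (z ω)) (fun ω => ((cv M (x (z ω)), ⌊(M : ℝ) * u (z ω)⌋), y ω)) ≤ e

end

section chain

variable {Ω Λ Z : Type} [Fintype Ω]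

/-- One line: the end and the start. -/
noncomputable def Q1 (p : Ω → ℝ) (L : Ω → Λ) : Ω × Ω → ℝ := glue p p L L

/-- Two lines. -/
noncomputable def Q2 (p : Ω → ℝ) (L : Ω → Λ) (z : Ω → Z) : Ω × (Ω × (Ω × Ω)) → ℝ :=
  Hop p L z (Q1 p L) (fun w => w.1)

/-- Three lines. -/
noncomputable def Q3 (p : Ω → ℝ) (L : Ω → Λ) (z : Ω → Z) :
    Ω × (Ω × (Ω × (Ω × (Ω × Ω)))) → ℝ :=
  Hop p L z (Q2 p L z) (fun w => w.1)

/-- Four lines. -/
noncomputable def Q4 (p : Ω → ℝ) (L : Ω → Λ) (z : Ω → Z) :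
    Ω × (Ω × (Ω × (Ω × (Ω × (Ω × (Ω × Ω)))))) → ℝ :=
  Hop p L z (Q3 p L z) (fun w => w.1)

/-- The samples of the chain. -/
abbrev W4 (Ω : Type) : Type := Ω × (Ω × (Ω × (Ω × (Ω × (Ω × (Ω × Ω))))))

def eA0 (w : W4 Ω) : Ω := w.2.2.2.2.2.2.2
def eB0 (w : W4 Ω) : Ω := w.2.2.2.2.2.2.1
def eA1 (w : W4 Ω) : Ω := w.2.2.2.2.2.1
def eB1 (w : W4 Ω) : Ω := w.2.2.2.2.1
def eA2 (w : W4 Ω) : Ω := w.2.2.2.1
def eB2 (w : W4 Ω) : Ω := w.2.2.1
def eA3 (w : W4 Ω) : Ω := w.2.1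
def eB3 (w : W4 Ω) : Ω := w.1

variable {p : Ω → ℝ} (hp : IsLaw p) (L : Ω → Λ) (z : Ω → Z)

include hp

theorem q1_law : IsLaw (Q1 p L) := glueLaw' hp hp fun _ => rfl
theorem q1_s : Marg (Q1 p L) p (fun w => w.1) := marg_fst hp.nonneg fun _ => rfl
theorem q1_f : Marg (Q1 p L) p (fun w => w.2) := marg_snd hp.nonneg fun _ => rfl
theorem q2_law : IsLaw (Q2 p L z) := hop_law hp L z (q1_law hp L) (q1_s hp L)
theorem q2_s : Marg (Q2 p L z) p (fun w => w.1) := hop_s hp L z (q1_law hp L) (q1_s hp L)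
theorem q3_law : IsLaw (Q3 p L z) := hop_law hp L z (q2_law hp L z) (q2_s hp L z)
theorem q3_s : Marg (Q3 p L z) p (fun w => w.1) := hop_s hp L z (q2_law hp L z) (q2_s hp L z)
theorem q4_law : IsLaw (Q4 p L z) := hop_law hp L z (q3_law hp L z) (q3_s hp L z)
theorem q4_s : Marg (Q4 p L z) p eB3 := hop_s hp L z (q3_law hp L z) (q3_s hp L z)
theorem q4_3 : Marg (Q4 p L z) (Q3 p L z) (fun w => w.2.2) :=
  hop_w hp L z (q3_law hp L z) (q3_s hp L z)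
theorem q3_2 : Marg (Q3 p L z) (Q2 p L z) (fun w => w.2.2) :=
  hop_w hp L z (q2_law hp L z) (q2_s hp L z)
theorem q2_1 : Marg (Q2 p L z) (Q1 p L) (fun w => w.2.2) :=
  hop_w hp L z (q1_law hp L) (q1_s hp L)
theorem q4_2 : Marg (Q4 p L z) (Q2 p L z) (fun w => w.2.2.2.2) :=
  (q4_3 hp L z).comp (q3_2 hp L z)
theorem q4_1 : Marg (Q4 p L z) (Q1 p L) (fun w => w.2.2.2.2.2.2) :=
  (q4_2 hp L z).comp (q2_1 hp L z)

/-- The pairs of the lines. -/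
theorem q4_p0 : Marg (Q4 p L z) (glue p p L L) (fun w => (eB0 w, eA0 w)) := q4_1 hp L z
theorem q4_p1 : Marg (Q4 p L z) (glue p p L L) (fun w => (eB1 w, eA1 w)) :=
  (q4_2 hp L z).comp (hop_two hp L z (q1_law hp L) (q1_s hp L))
theorem q4_p2 : Marg (Q4 p L z) (glue p p L L) (fun w => (eB2 w, eA2 w)) :=
  (q4_3 hp L z).comp (hop_two hp L z (q2_law hp L z) (q2_s hp L z))
theorem q4_p3 : Marg (Q4 p L z) (glue p p L L) (fun w => (eB3 w, eA3 w)) :=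
  hop_two hp L z (q3_law hp L z) (q3_s hp L z)

theorem q4_a0 : Marg (Q4 p L z) p eA0 := (q4_p0 hp L z).comp (q1_f hp L)
theorem q4_a1 : Marg (Q4 p L z) p eA1 := (q4_p1 hp L z).comp (q1_f hp L)
theorem q4_a2 : Marg (Q4 p L z) p eA2 := (q4_p2 hp L z).comp (q1_f hp L)
theorem q4_a3 : Marg (Q4 p L z) p eA3 := (q4_p3 hp L z).comp (q1_f hp L)

/-- The relations of the chain. -/
theorem q4_pos {w : W4 Ω} (h : 0 < Q4 p L z w) :
    (0 < p (eA0 w) ∧ 0 < p (eB0 w) ∧ 0 < p (eA1 w) ∧ 0 < p (eB1 w) ∧ 0 < p (eA2 w) ∧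
      0 < p (eB2 w) ∧ 0 < p (eA3 w) ∧ 0 < p (eB3 w)) ∧
    (L (eA0 w) = L (eB0 w) ∧ L (eA1 w) = L (eB1 w) ∧ L (eA2 w) = L (eB2 w) ∧
      L (eA3 w) = L (eB3 w)) ∧
    (z (eA1 w) = z (eB0 w) ∧ z (eA2 w) = z (eB1 w) ∧ z (eA3 w) = z (eB2 w)) := by
  obtain ⟨a1, a2, a3, a4, a5⟩ := hop_pos hp L z (q3_law hp L z) (q3_s hp L z) h
  obtain ⟨b1, b2, b3, b4, b5⟩ := hop_pos hp L z (q2_law hp L z) (q2_s hp L z) a3
  obtain ⟨d1, d2, d3, d4, d5⟩ := hop_pos hp L z (q1_law hp L) (q1_s hp L) b3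
  obtain ⟨e1, e2, e3⟩ := (glue_pos_iff hp.nonneg hp.nonneg w.2.2.2.2.2.2).1 d3
  exact ⟨⟨e2, e1, d2, d1, b2, b1, a2, a1⟩, ⟨e3.symm, d4.symm, b4.symm, a4.symm⟩, ⟨d5, b5, a5⟩⟩

end chain

section ent

variable {Ω Λ Z Y 𝒟 : Type} [Fintype Ω] {p : Ω → ℝ} {L : Ω → Λ} {z : Ω → Z} {y : Ω → Y} {t : Ω → ℤ}
  {D : Λ → 𝒟} {X : 𝒟 → V3} {x : Z → V3} {u : Z → ℝ} {φ : Y → V3 → ℝ} {a : Y → V3} {v : Z → ℤ}
  {M : ℕ} {K e η c : ℝ}

/-- The start and the directions. -/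
def gw (L : Ω → Λ) (z : Ω → Z) (D : Λ → 𝒟) (w : W4 Ω) : Z × (𝒟 × (𝒟 × (𝒟 × 𝒟))) :=
  (z (eA0 w), (D (L (eA0 w)), (D (L (eA1 w)), (D (L (eA2 w)), D (L (eA3 w))))))

/-- The times. -/
def tw (t : Ω → ℤ) (w : W4 Ω) : ℤ × (ℤ × (ℤ × ℤ)) :=
  (t (eB0 w), (t (eB1 w), (t (eB2 w), t (eB3 w))))

/-- **The times are full given the start and the directions.** -/
theorem tw_full (hC : ConH p L z y t D X x u φ a v M K e η c) :
    4 * Real.log (2 * M + 1) - 8 * e ≤ CH (Q4 p L z) (tw t) (gw L z D) := by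
  have hp := hC.law
  have g0 := (q4_law hp L z).nonneg
  -- the lower bound
  have l1 : H p z + CH p (fun ω => D (L ω)) z + CH p t L ≤
      H (Q1 p L) (fun w => (t w.1, (D (L w.2), z w.2))) := by
    have h0 := (q1_law hp L).nonneg
    have a2 : CH p t L ≤ CH (Q1 p L) (fun w => t w.1) (fun w => (D (L w.2), z w.2)) := by
      have h1 := CH_glue_fst (p₁ := p) (p₂ := p) (Z₁ := L) (Z₂ := L) hp.nonneg
        hp.nonneg (fun _ => rfl) t (Y := L) (fun ω => (D (L ω), z ω)) (fun _ _ _ _ h => h)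
      rw [← h1]
      exact CH_mono_cond h0 fun w w' a b h => (Prod.ext_iff.1 h).2
    have a3 : H (Q1 p L) (fun w => (D (L w.2), z w.2)) = H p (fun ω => (D (L ω), z ω)) :=
      (q1_f hp L).H (fun ω => (D (L ω), z ω))
    unfold CH at a2 ⊢
    linarith
  have l2 := hop_H hp L z (q1_law hp L) (q1_s hp L) (fun w => (t w.1, (D (L w.2), z w.2))) D t
  have l3 := hop_H hp L z (q2_law hp L z) (q2_s hp L z)
    (fun w => (t w.1, (D (L w.2.1), (t w.2.2.1, (D (L w.2.2.2), z w.2.2.2))))) D t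
  have l4 := hop_H hp L z (q3_law hp L z) (q3_s hp L z)
    (fun w => (t w.1, (D (L w.2.1), (t w.2.2.1, (D (L w.2.2.2.1), (t w.2.2.2.2.1,
      (D (L w.2.2.2.2.2), z w.2.2.2.2.2))))))) D t
  have l5 : H (Q4 p L z) (fun w => (tw t w, gw L z D w)) =
      H (Q4 p L z) (fun w => (t w.1, (D (L w.2.1), (t w.2.2.1, (D (L w.2.2.2.1), (t w.2.2.2.2.1,
        (D (L w.2.2.2.2.2.1), (t w.2.2.2.2.2.2.1,
          (D (L w.2.2.2.2.2.2.2), z w.2.2.2.2.2.2.2))))))))) := by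
    refine H_congr g0 (fun w w' _ _ h => ?_) (fun w w' _ _ h => ?_)
    · simp only [Prod.mk.injEq] at h
      simp only [tw, gw, eA0, eB0, eA1, eB1, eA2, eB2, eA3, eB3, Prod.mk.injEq]
      tauto
    · simp only [tw, gw, eA0, eB0, eA1, eB1, eA2, eB2, eA3, eB3, Prod.mk.injEq] at h
      simp only [Prod.mk.injEq]
      tauto
  -- the upper bound
  have u1 : H (Q4 p L z) (gw L z D) ≤ H p z + 4 * CH p (fun ω => D (L ω)) y := by
    have h1 : H (Q4 p L z) (fun w => z (eA0 w)) = H p z := (q4_a0 hp L z).H z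
    have hy : ∀ w w', 0 < Q4 p L z w → 0 < Q4 p L z w' → z (eA0 w) = z (eA0 w') →
        y (eA0 w) = y (eA0 w') ∧ y (eA1 w) = y (eA1 w') ∧ y (eA2 w) = y (eA2 w') ∧
          y (eA3 w) = y (eA3 w') := by
      intro w w' hw hw' h
      obtain ⟨⟨a1, a2, a3, a4, a5, a6, a7, a8⟩, ⟨b1, b2, b3, b4⟩, ⟨d1, d2, d3⟩⟩ :=
        q4_pos hp L z hw
      obtain ⟨⟨a1', a2', a3', a4', a5', a6', a7', a8'⟩, ⟨b1', b2', b3', b4'⟩, ⟨d1', d2', d3'⟩⟩ :=
        q4_pos hp L z hw'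
      have y0 := hC.yz _ _ a1 a1' h
      have y1 : y (eA1 w) = y (eA0 w) := by
        rw [hC.yz _ _ a3 a2 d1, hC.yL _ _ a1 a2 b1]
      have y2 : y (eA2 w) = y (eA0 w) := by
        rw [hC.yz _ _ a5 a4 d2, ← hC.yL _ _ a3 a4 b2, y1]
      have y3 : y (eA3 w) = y (eA0 w) := by
        rw [hC.yz _ _ a7 a6 d3, ← hC.yL _ _ a5 a6 b3, y2]
      have y1' : y (eA1 w') = y (eA0 w') := by
        rw [hC.yz _ _ a3' a2' d1', hC.yL _ _ a1' a2' b1']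
      have y2' : y (eA2 w') = y (eA0 w') := by
        rw [hC.yz _ _ a5' a4' d2', ← hC.yL _ _ a3' a4' b2', y1']
      have y3' : y (eA3 w') = y (eA0 w') := by
        rw [hC.yz _ _ a7' a6' d3', ← hC.yL _ _ a5' a6' b3', y2']
      exact ⟨y0, by rw [y1, y1', y0], by rw [y2, y2', y0], by rw [y3, y3', y0]⟩
    have c0 : CH (Q4 p L z) (fun w => D (L (eA0 w))) (fun w => z (eA0 w)) ≤
        CH p (fun ω => D (L ω)) y := by
      rw [← (q4_a0 hp L z).CH (fun ω => D (L ω)) y]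
      exact CH_mono_cond g0 fun w w' hw hw' h => (hy w w' hw hw' h).1
    have c1 : CH (Q4 p L z) (fun w => D (L (eA1 w))) (fun w => z (eA0 w)) ≤
        CH p (fun ω => D (L ω)) y := by
      rw [← (q4_a1 hp L z).CH (fun ω => D (L ω)) y]
      exact CH_mono_cond g0 fun w w' hw hw' h => (hy w w' hw hw' h).2.1
    have c2 : CH (Q4 p L z) (fun w => D (L (eA2 w))) (fun w => z (eA0 w)) ≤
        CH p (fun ω => D (L ω)) y := by
      rw [← (q4_a2 hp L z).CH (fun ω => D (L ω)) y]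
      exact CH_mono_cond g0 fun w w' hw hw' h => (hy w w' hw hw' h).2.2.1
    have c3 : CH (Q4 p L z) (fun w => D (L (eA3 w))) (fun w => z (eA0 w)) ≤
        CH p (fun ω => D (L ω)) y := by
      rw [← (q4_a3 hp L z).CH (fun ω => D (L ω)) y]
      exact CH_mono_cond g0 fun w w' hw hw' h => (hy w w' hw hw' h).2.2.2
    have d0 := CH_subadd g0 (fun w => D (L (eA0 w))) (fun w => (D (L (eA1 w)), (D (L (eA2 w)),
      D (L (eA3 w))))) (fun w => z (eA0 w))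
    have d1 := CH_subadd g0 (fun w => D (L (eA1 w))) (fun w => (D (L (eA2 w)),
      D (L (eA3 w)))) (fun w => z (eA0 w))
    have d2 := CH_subadd g0 (fun w => D (L (eA2 w))) (fun w => D (L (eA3 w)))
      (fun w => z (eA0 w))
    have e1 : H (Q4 p L z) (gw L z D) = H (Q4 p L z) (fun w => ((D (L (eA0 w)), (D (L (eA1 w)),
        (D (L (eA2 w)), D (L (eA3 w))))), z (eA0 w))) := by
      refine H_congr g0 (fun w w' _ _ h => ?_) (fun w w' _ _ h => ?_)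
      · have h' := Prod.ext_iff.1 h
        exact Prod.ext h'.2 h'.1
      · have h' := Prod.ext_iff.1 h
        exact Prod.ext h'.2 h'.1
    unfold CH at c0 c1 c2 c3 d0 d1 d2 ⊢
    rw [e1]
    linarith
  have f1 := hC.full
  have f2 := hC.free
  have e0 : CH (Q4 p L z) (tw t) (gw L z D) =
      H (Q4 p L z) (fun w => (tw t w, gw L z D w)) - H (Q4 p L z) (gw L z D) := rfl
  rw [e0, l5]
  have l2' : H (Q1 p L) (fun w => (t w.1, (D (L w.2), z w.2))) + CH p (fun ω => D (L ω)) z +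
      CH p t L ≤ H (Q2 p L z) (fun w => (t w.1, (D (L w.2.1), (t w.2.2.1, (D (L w.2.2.2),
        z w.2.2.2))))) := l2
  have l3' : H (Q2 p L z) (fun w => (t w.1, (D (L w.2.1), (t w.2.2.1, (D (L w.2.2.2),
        z w.2.2.2))))) + CH p (fun ω => D (L ω)) z + CH p t L ≤
      H (Q3 p L z) (fun w => (t w.1, (D (L w.2.1), (t w.2.2.1, (D (L w.2.2.2.1), (t w.2.2.2.2.1,
      (D (L w.2.2.2.2.2), z w.2.2.2.2.2))))))) := l3
  have l4' : H (Q3 p L z) (fun w => (t w.1, (D (L w.2.1), (t w.2.2.1, (D (L w.2.2.2.1),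
      (t w.2.2.2.2.1, (D (L w.2.2.2.2.2), z w.2.2.2.2.2))))))) + CH p (fun ω => D (L ω)) z +
        CH p t L ≤ H (Q4 p L z) (fun w => (t w.1, (D (L w.2.1), (t w.2.2.1, (D (L w.2.2.2.1),
          (t w.2.2.2.2.1, (D (L w.2.2.2.2.2.1), (t w.2.2.2.2.2.2.1,
          (D (L w.2.2.2.2.2.2.2), z w.2.2.2.2.2.2.2))))))))) := l4
  linarith

end ent

end Pool.CFF
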