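import Pool.Agent.H6.CFF.Two
import Pool.Agent.H13.S2.Law

/-!
# The value is closed: the entropies
-/

set_option autoImplicit false

namespace Pool.CFF

open Finset Real
open Pool.Agent.H49.Ent Pool.Agent.H32.Dense Pool.STK Pool.MIC Pool.OWN68
open Pool.BFL (Pb)
open Pool.STB (V3 Bx cv mt Pb_mono Pb_or Pb_le2 glueLaw')
open Pool.STB6 (sol sol_spec)

theorem Pb_nn {Ω : Type} [Fintype Ω] {q : Ω → ℝ} (hq : ∀ ω, 0 ≤ q ω) (A : Ω → Prop) :
    0 ≤ Pb q A := by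
  classical
  unfold Pb
  refine Finset.sum_nonneg fun ω _ => ?_
  split_ifs
  · exact hq ω
  · exact le_rfl

section

variable {Ω Λ Z Y 𝒟 : Type} [Fintype Ω] {p : Ω → ℝ} {L : Ω → Λ} {z : Ω → Z} {y : Ω → Y} {t : Ω → ℤ}
  {D : Λ → 𝒟} {X : 𝒟 → V3} {x : Z → V3} {u : Z → ℝ} {φ : Y → V3 → ℝ} {a : Y → V3} {v : Z → ℤ}
  {M : ℕ} {K e η c : ℝ}

/-- The position of a record. -/
noncomputable def PP (M : ℕ) (x : Z → V3) (u : Z → ℝ) (r : Z) : (Fin 3 → ℤ) × ℤ :=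
  (cv M (x r), ⌊(M : ℝ) * u r⌋)

/-- The derivative of the area at a chain. -/
noncomputable def Jw (M : ℕ) (L : Ω → Λ) (z : Ω → Z) (y : Ω → Y) (t : Ω → ℤ) (D : Λ → 𝒟)
    (X : 𝒟 → V3) (a : Y → V3) (w : W4 Ω) : ℝ :=
  Jg M X a (gy L z y D w) (t (eB0 w)) (t (eB1 w)) (t (eB2 w))

/-- The good event. -/
def Gq (M : ℕ) (L : Ω → Λ) (z : Ω → Z) (y : Ω → Y) (t : Ω → ℤ) (D : Λ → 𝒟)
    (X : 𝒟 → V3) (a : Y → V3) (η ρ : ℝ) (w : W4 Ω) : Prop :=
  GG L D X y a η w ∧ ρ * η ^ 4 / 3 ≤ |Jw M L z y t D X a w|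

/-- The sign of the derivative. -/
noncomputable def sg (M : ℕ) (L : Ω → Λ) (z : Ω → Z) (y : Ω → Y) (t : Ω → ℤ) (D : Λ → 𝒟)
    (X : 𝒟 → V3) (a : Y → V3) (w : W4 Ω) : Bool := decide (0 ≤ Jw M L z y t D X a w)

theorem Gq_bad (hC : ConH p L z y t D X x u φ a v M K e η c) (hη : 0 < η) (hM : 1 ≤ M) {ρ : ℝ}
    (hρ : 0 < ρ) (hρ1 : ρ < 1) (hρM : 1 ≤ ρ * M) :
    Pb (Q4 p L z) (fun w => ¬ Gq M L z y t D X a η ρ w) ≤
      6 * c + (8 * e + Real.log 2) / Real.log (1 / ρ) := by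
  have g0 := (q4_law hC.law L z).nonneg
  have h1 := GG_bad hC hη.le
  have h2 := ev7 hC hη hM hρ hρM
  have hl : 0 < Real.log (1 / ρ) := Real.log_pos (by rw [lt_div_iff₀ hρ]; linarith)
  have h3 := (le_div_iff₀ hl).2 h2
  have h4 := Pb_or g0 (fun w => ¬ GG L D X y a η w) (fun w => GG L D X y a η w ∧
    ¬ ρ * η ^ 4 / 3 ≤ |Jg M X a (gy L z y D w) (t (eB0 w)) (t (eB1 w)) (t (eB2 w))|)
  have h5 := Pb_mono g0 (A := fun w => ¬ Gq M L z y t D X a η ρ w) (B := fun w =>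
    ¬ GG L D X y a η w ∨ (GG L D X y a η w ∧
    ¬ ρ * η ^ 4 / 3 ≤ |Jg M X a (gy L z y D w) (t (eB0 w)) (t (eB1 w)) (t (eB2 w))|))
    (fun w _ h => by
      unfold Gq Jw at h
      tauto)
  linarith

/-- The step is known. -/
theorem dl_near (hC : ConH p L z y t D X x u φ a v M K e η c) (hM : 1 ≤ M) (hK : 1 ≤ K)
    (hη : 0 < η) (hη1 : η ≤ 1) {ρ : ℝ} (hρ : 0 < ρ) {w w' : W4 Ω}
    (hw : 0 < Q4 p L z w) (hw' : 0 < Q4 p L z w') (hG : Gq M L z y t D X a η ρ w)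
    (hG' : Gq M L z y t D X a η ρ w') (hg : gw L z D w = gw L z D w')
    (hP : PP M x u (z (eB3 w)) = PP M x u (z (eB3 w')))
    (hs : sg M L z y t D X a w = sg M L z y t D X a w') :
    |((t (eB3 w) - t (eB2 w) : ℤ) : ℝ) - ((t (eB3 w') - t (eB2 w') : ℤ) : ℝ)| ≤
      18300 * K / (ρ * η ^ 7) := by
  have hM0 : (0 : ℝ) < M := by exact_mod_cast hM
  have h1 := (two_w hC hM hK hη hη1 hw hw' hG.1 hg (Prod.ext_iff.1 hP).1 (Prod.ext_iff.1 hP).2).2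
  have j1 := hG.2
  have j2 := hG'.2
  obtain ⟨J, hJ⟩ : ∃ J, J = Jw M L z y t D X a w := ⟨_, rfl⟩
  obtain ⟨J', hJ'⟩ : ∃ J', J' = Jw M L z y t D X a w' := ⟨_, rfl⟩
  have h1' : |(s3 M t w - s3 M t w') * ((J + J') / 2)| ≤ 6100 * (K / M) / η ^ 3 := by
    rw [hJ, hJ']
    exact h1
  rw [← hJ] at j1
  rw [← hJ'] at j2
  have hθ : 0 < ρ * η ^ 4 / 3 := by positivity
  -- the sum of the derivatives
  have hsum : ρ * η ^ 4 / 3 ≤ |(J + J') / 2| := by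
    unfold sg at hs
    rw [← hJ, ← hJ'] at hs
    by_cases c0 : 0 ≤ J
    · have c1 : 0 ≤ J' := by
        rw [decide_eq_true c0] at hs
        exact of_decide_eq_true hs.symm
      rw [abs_of_nonneg c0] at j1
      rw [abs_of_nonneg c1] at j2
      rw [abs_of_nonneg (by linarith)]
      linarith
    · have c1 : ¬ 0 ≤ J' := by
        rw [decide_eq_false c0] at hs
        exact of_decide_eq_false hs.symm
      rw [abs_of_neg (not_le.1 c0)] at j1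
      rw [abs_of_neg (not_le.1 c1)] at j2
      have := not_le.1 c0
      have := not_le.1 c1
      rw [abs_of_neg (by linarith)]
      linarith
  rw [abs_mul] at h1'
  have e1 : s3 M t w - s3 M t w' = (((t (eB3 w) - t (eB2 w) : ℤ) : ℝ) -
      ((t (eB3 w') - t (eB2 w') : ℤ) : ℝ)) / M := by
    unfold s3
    push_cast
    ring
  rw [e1, abs_div, abs_of_pos hM0] at h1'
  obtain ⟨d, hd⟩ : ∃ d, d = |((t (eB3 w) - t (eB2 w) : ℤ) : ℝ) -
    ((t (eB3 w') - t (eB2 w') : ℤ) : ℝ)| := ⟨_, rfl⟩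
  rw [← hd] at h1' ⊢
  have hd0 : 0 ≤ d := by rw [hd]; exact abs_nonneg _
  have h2 : d / M * (ρ * η ^ 4 / 3) ≤ 6100 * (K / M) / η ^ 3 :=
    (mul_le_mul_of_nonneg_left hsum (by positivity)).trans h1'
  have h3 : d * (ρ * η ^ 7) ≤ 18300 * K := by
    have h4 := mul_le_mul_of_nonneg_left h2 (show 0 ≤ 3 * (M : ℝ) * η ^ 3 by positivity)
    have e2 : 3 * (M : ℝ) * η ^ 3 * (d / M * (ρ * η ^ 4 / 3)) = d * (ρ * η ^ 7) := by
      field_simp
    have e3 : 3 * (M : ℝ) * η ^ 3 * (6100 * (K / M) / η ^ 3) = 18300 * K := by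
      field_simp
      norm_num
    rw [e2, e3] at h4
    exact h4
  rw [le_div_iff₀ (by positivity)]
  exact h3

/-- The times are known when the last step is known. -/
theorem t_near (hC : ConH p L z y t D X x u φ a v M K e η c) (hM : 1 ≤ M) (hK : 1 ≤ K)
    (hη : 0 < η) (hη1 : η ≤ 1) {ρ : ℝ} (hρ : 0 < ρ) (hρ1 : ρ ≤ 1) {w w' : W4 Ω}
    (hw : 0 < Q4 p L z w) (hw' : 0 < Q4 p L z w') (hG : Gq M L z y t D X a η ρ w)
    (hg : gw L z D w = gw L z D w')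
    (hP : PP M x u (z (eB3 w)) = PP M x u (z (eB3 w')))
    (hd : t (eB3 w) - t (eB2 w) = t (eB3 w') - t (eB2 w')) :
    |(t (eB0 w) : ℝ) - t (eB0 w')| ≤ 18300 * K / (ρ * η ^ 7) ∧
    |(t (eB1 w) : ℝ) - t (eB1 w')| ≤ 18300 * K / (ρ * η ^ 7) ∧
    |(t (eB2 w) : ℝ) - t (eB2 w')| ≤ 18300 * K / (ρ * η ^ 7) := by
  have hM0 : (0 : ℝ) < M := by exact_mod_cast hM
  have hη3 : 0 < η ^ 3 := by positivity
  obtain ⟨⟨r, hr, r0, r1, r2⟩, _⟩ := two_w hC hM hK hη hη1 hw hw' hG.1 hg (Prod.ext_iff.1 hP).1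
    (Prod.ext_iff.1 hP).2
  obtain ⟨⟨a1, _⟩, _⟩ := q4_pos hC.law L z hw
  obtain ⟨⟨a1', _⟩, _⟩ := q4_pos hC.law L z hw'
  have ht0 : t (eA0 w) = t (eA0 w') := hC.tz _ _ a1 a1' (Prod.ext_iff.1 hg).1
  have hd' : (t (eB3 w) : ℝ) - t (eB2 w) = t (eB3 w') - t (eB2 w') := by exact_mod_cast hd
  have e3 : s3 M t w - s3 M t w' = 0 := by
    unfold s3
    rw [hd']
    ring
  rw [e3, zero_mul, add_zero] at r0 r1 r2
  have hR : ∀ i, |r i| * M ≤ 54 * K / η ^ 3 := by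
    intro i
    have h1 := mul_le_mul_of_nonneg_right (hr i) hM0.le
    refine h1.trans (le_of_eq ?_)
    field_simp
  have m0 : (t (eB0 w) : ℝ) - t (eB0 w') = r 0 * M := by
    rw [← r0]
    unfold s0
    rw [ht0]
    field_simp
    ring
  have m1 : (t (eB1 w) : ℝ) - t (eB1 w') = r 0 * M + r 1 * M := by
    rw [← m0, ← r1]
    unfold s1
    field_simp
    ring
  have m2 : (t (eB2 w) : ℝ) - t (eB2 w') = r 0 * M + r 1 * M + r 2 * M := by
    rw [← m1, ← r2]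
    unfold s2
    field_simp
    ring
  have q0 : |r 0 * M| ≤ 54 * K / η ^ 3 := by
    rw [abs_mul, abs_of_pos hM0]
    exact hR 0
  have q1 : |r 1 * M| ≤ 54 * K / η ^ 3 := by
    rw [abs_mul, abs_of_pos hM0]
    exact hR 1
  have q2 : |r 2 * M| ≤ 54 * K / η ^ 3 := by
    rw [abs_mul, abs_of_pos hM0]
    exact hR 2
  have hA : 3 * (54 * K / η ^ 3) ≤ 18300 * K / (ρ * η ^ 7) := by
    rw [le_div_iff₀ (by positivity)]
    have h1 : ρ * η ^ 4 ≤ 1 := by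
      have := pow_le_one₀ (n := 4) hη.le hη1
      have h4 : 0 < η ^ 4 := by positivity
      nlinarith
    have e1 : 3 * (54 * K / η ^ 3) * (ρ * η ^ 7) = 162 * K * (ρ * η ^ 4) := by
      field_simp
      norm_num
    rw [e1]
    nlinarith
  have hpos : 0 ≤ 54 * K / η ^ 3 := by positivity
  obtain ⟨q01, q02⟩ := abs_le.1 q0
  obtain ⟨q11, q12⟩ := abs_le.1 q1
  obtain ⟨q21, q22⟩ := abs_le.1 q2
  refine ⟨?_, ?_, ?_⟩
  · rw [m0]
    exact abs_le.2 ⟨by linarith, by linarith⟩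
  · rw [m1]
    exact abs_le.2 ⟨by linarith, by linarith⟩
  · rw [m2]
    exact abs_le.2 ⟨by linarith, by linarith⟩

/-- **The times given the position of the end.** -/
theorem tw_few (hC : ConH p L z y t D X x u φ a v M K e η c) (hM : 1 ≤ M) (hK : 1 ≤ K)
    (hη : 0 < η) (hη1 : η ≤ 1) {ρ B : ℝ} (hρ : 0 < ρ) (hρ1 : ρ ≤ 1)
    (hB : Pb (Q4 p L z) (fun w => ¬ Gq M L z y t D X a η ρ w) ≤ B) :
    CH (Q4 p L z) (tw t) (fun w => (PP M x u (z (eB3 w)), gw L z D w)) ≤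
      5 * Real.log 2 + 4 * Real.log (3 * (18300 * K / (ρ * η ^ 7))) +
        5 * B * Real.log (2 * M + 1) := by
  have hq := q4_law hC.law L z
  have g0 := hq.nonneg
  have hM0 : (0 : ℝ) < M := by exact_mod_cast hM
  have hT : 0 ≤ Real.log (2 * M + 1) := Real.log_nonneg (by linarith)
  have hA : 1 ≤ 18300 * K / (ρ * η ^ 7) := by
    rw [le_div_iff₀ (by positivity)]
    have := pow_le_one₀ (n := 7) hη.le hη1
    have h4 : 0 < η ^ 7 := by positivity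
    nlinarith
  have hb : ∀ w, 0 < Q4 p L z w → |t (eB0 w)| ≤ (M : ℤ) ∧ |t (eB1 w)| ≤ (M : ℤ) ∧
      |t (eB2 w)| ≤ (M : ℤ) ∧ |t (eB3 w)| ≤ (M : ℤ) := by
    intro w hw
    obtain ⟨⟨a1, a2, a3, a4, a5, a6, a7, a8⟩, _⟩ := q4_pos hC.law L z hw
    exact ⟨hC.tM _ a2, hC.tM _ a4, hC.tM _ a6, hC.tM _ a8⟩
  obtain ⟨W, hW⟩ : ∃ W : W4 Ω → ((Fin 3 → ℤ) × ℤ) × (Z × (𝒟 × (𝒟 × (𝒟 × 𝒟)))),
    W = fun w => (PP M x u (z (eB3 w)), gw L z D w) := ⟨_, rfl⟩
  rw [← hW]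
  -- the sign
  have c1 : CH (Q4 p L z) (sg M L z y t D X a) W ≤ Real.log 2 := by
    have h2 := CH_le_card g0 hq.sum_one (sg M L z y t D X a) W
      (fun _ => (Finset.univ : Finset Bool)) (fun ω _ => Finset.mem_univ _)
    rw [Ex_const hq.sum_one, Finset.card_univ, Fintype.card_bool] at h2
    push_cast at h2
    exact h2
  -- the step
  have c2 := CH_near2 hq (fun w => t (eB3 w) - t (eB2 w))
    (fun w => (sg M L z y t D X a w, W w)) (Gq M L z y t D X a η ρ) hA (M := 2 * M)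
    (fun w hw => by
      obtain ⟨b0, b1, b2, b3⟩ := hb w hw
      obtain ⟨m1, m2⟩ := abs_le.1 b2
      obtain ⟨m3, m4⟩ := abs_le.1 b3
      push_cast
      exact abs_le.2 ⟨by linarith, by linarith⟩)
    (fun w w' hw hw' hG hG' h => by
      have h1 := Prod.ext_iff.1 h
      have h2 := h1.2
      rw [hW] at h2
      have h3 := Prod.ext_iff.1 h2
      exact dl_near hC hM hK hη hη1 hρ hw hw' hG hG' h3.2 h3.1 h1.1)
  have key : ∀ w w' : W4 Ω, 0 < Q4 p L z w → 0 < Q4 p L z w' → Gq M L z y t D X a η ρ w →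
      ((fun w => (t (eB3 w) - t (eB2 w), (sg M L z y t D X a w, W w))) w =
        (fun w => (t (eB3 w) - t (eB2 w), (sg M L z y t D X a w, W w))) w') →
      |(t (eB0 w) : ℝ) - t (eB0 w')| ≤ 18300 * K / (ρ * η ^ 7) ∧
      |(t (eB1 w) : ℝ) - t (eB1 w')| ≤ 18300 * K / (ρ * η ^ 7) ∧
      |(t (eB2 w) : ℝ) - t (eB2 w')| ≤ 18300 * K / (ρ * η ^ 7) := by
    intro w w' hw hw' hG h
    have h1 := Prod.ext_iff.1 h
    have h2 := (Prod.ext_iff.1 h1.2).2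
    rw [hW] at h2
    have h3 := Prod.ext_iff.1 h2
    exact t_near hC hM hK hη hη1 hρ hρ1 hw hw' hG h3.2 h3.1 h1.1
  have c3 := CH_near2 hq (fun w => t (eB0 w))
    (fun w => (t (eB3 w) - t (eB2 w), (sg M L z y t D X a w, W w)))
    (Gq M L z y t D X a η ρ) hA (fun w hw => (hb w hw).1)
    (fun w w' hw hw' hG _ h => (key w w' hw hw' hG h).1)
  have c4 := CH_near2 hq (fun w => t (eB1 w))
    (fun w => (t (eB3 w) - t (eB2 w), (sg M L z y t D X a w, W w)))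
    (Gq M L z y t D X a η ρ) hA (fun w hw => (hb w hw).2.1)
    (fun w w' hw hw' hG _ h => (key w w' hw hw' hG h).2.1)
  have c5 := CH_near2 hq (fun w => t (eB2 w))
    (fun w => (t (eB3 w) - t (eB2 w), (sg M L z y t D X a w, W w)))
    (Gq M L z y t D X a η ρ) hA (fun w hw => (hb w hw).2.2.1)
    (fun w w' hw hw' hG _ h => (key w w' hw hw' hG h).2.2)
  -- the chain rule
  have d1 := CH_le_add g0 (tw t) (sg M L z y t D X a) W
  have d2 := CH_le_add g0 (tw t) (fun w => t (eB3 w) - t (eB2 w))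
    (fun w => (sg M L z y t D X a w, W w))
  have d3 := CH_mono_left g0 (X' := fun w => (t (eB0 w), (t (eB1 w), t (eB2 w)))) (X := tw t)
    (W := fun w => (t (eB3 w) - t (eB2 w), (sg M L z y t D X a w, W w)))
    (fun w w' _ _ h => by
      have h1 := Prod.ext_iff.1 h
      have h2 : t (eB0 w) = t (eB0 w') := (Prod.ext_iff.1 h1.1).1
      have h3 : t (eB1 w) = t (eB1 w') := (Prod.ext_iff.1 (Prod.ext_iff.1 h1.1).2).1
      have h4 : t (eB2 w) = t (eB2 w') := (Prod.ext_iff.1 (Prod.ext_iff.1 h1.1).2).2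
      have h5 : t (eB3 w) - t (eB2 w) = t (eB3 w') - t (eB2 w') := (Prod.ext_iff.1 h1.2).1
      have h6 : t (eB3 w) = t (eB3 w') := by linarith
      show (t (eB0 w), (t (eB1 w), (t (eB2 w), t (eB3 w)))) =
        (t (eB0 w'), (t (eB1 w'), (t (eB2 w'), t (eB3 w'))))
      rw [h2, h3, h4, h6])
  have d4 := CH_subadd g0 (fun w => t (eB0 w)) (fun w => (t (eB1 w), t (eB2 w)))
    (fun w => (t (eB3 w) - t (eB2 w), (sg M L z y t D X a w, W w)))
  have d5 := CH_subadd g0 (fun w => t (eB1 w)) (fun w => t (eB2 w))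
    (fun w => (t (eB3 w) - t (eB2 w), (sg M L z y t D X a w, W w)))
  have f1 : Real.log (2 * ((2 * M : ℕ) : ℝ) + 1) ≤ 2 * Real.log (2 * M + 1) := by
    have h1 : Real.log ((2 * (M : ℝ) + 1) ^ 2) = 2 * Real.log (2 * M + 1) := by
      rw [Real.log_pow]
      norm_num
    rw [← h1]
    refine Real.log_le_log (by positivity) ?_
    push_cast
    nlinarith
  have hPb : 0 ≤ Pb (Q4 p L z) (fun w => ¬ Gq M L z y t D X a η ρ w) :=
    Pb_nn g0 _
  have f2 : Pb (Q4 p L z) (fun w => ¬ Gq M L z y t D X a η ρ w) *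
      Real.log (2 * ((2 * M : ℕ) : ℝ) + 1) ≤ 2 * (B * Real.log (2 * M + 1)) := by
    calc _ ≤ Pb (Q4 p L z) (fun w => ¬ Gq M L z y t D X a η ρ w) *
          (2 * Real.log (2 * M + 1)) := mul_le_mul_of_nonneg_left f1 hPb
      _ ≤ B * (2 * Real.log (2 * M + 1)) := mul_le_mul_of_nonneg_right hB (by positivity)
      _ = _ := by ring
  have f3 : Pb (Q4 p L z) (fun w => ¬ Gq M L z y t D X a η ρ w) * Real.log (2 * M + 1) ≤
      B * Real.log (2 * M + 1) := mul_le_mul_of_nonneg_right hB hT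
  linarith

end

end Pool.CFF
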