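import Pool.Agent.H6.CFF.Chn

/-!
# The events of general position on a chain
-/

set_option autoImplicit false

namespace Pool.CFF

open Finset Real
open Pool.Agent.H49.Ent Pool.Agent.H32.Dense Pool.STK Pool.MIC
open Pool.BFL (Pb)
open Pool.STB (V3 Bx cv mt Pb_mono Pb_or Pb_le2 glueLaw' gp_sel)

section

variable {Ω Λ Z Y 𝒟 : Type} [Fintype Ω] {p : Ω → ℝ} {L : Ω → Λ} {z : Ω → Z} {y : Ω → Y} {t : Ω → ℤ}
  {D : Λ → 𝒟} {X : 𝒟 → V3} {x : Z → V3} {u : Z → ℝ} {φ : Y → V3 → ℝ} {a : Y → V3} {v : Z → ℤ}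
  {M : ℕ} {K e η c : ℝ}

/-- The direction of a sample. -/
def dX (L : Ω → Λ) (D : Λ → 𝒟) (X : 𝒟 → V3) (ω : Ω) : V3 := X (D (L ω))

theorem ev1 (hC : ConH p L z y t D X x u φ a v M K e η c) (hη : 0 ≤ η) :
    Pb (Q4 p L z) (fun w => Bad η c1 (dX L D X (eA0 w))) ≤ c := by
  rw [Marg.Pb_eq (q4_a0 hC.law L z) (fun ω => Bad η c1 (dX L D X ω))]
  refine (Pb_mono hC.law.nonneg fun ω _ h => ?_).trans (hC.gp (fun _ => c1)
    (fun _ => ⟨fun i => ?_, 0, ?_⟩))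
  · obtain ⟨j, hj, h⟩ := h
    have : |c1 j| ≤ 1 := by
      unfold c1
      fin_cases j <;> simp
    calc _ ≤ η * |c1 j| := h
      _ ≤ η * 1 := mul_le_mul_of_nonneg_left this hη
      _ = η := mul_one _
  · unfold c1
    fin_cases i <;> simp
  · unfold c1
    simp

theorem ev2 (hC : ConH p L z y t D X x u φ a v M K e η c) (hη : 0 ≤ η) :
    Pb (Q4 p L z) (fun w => Bad η (c2 (dX L D X (eA0 w))) (dX L D X (eA1 w))) ≤ c := by
  refine le_of_eq_of_le (Marg.Pb_eq (q4_2 hC.law L z)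
    (fun w => Bad η (c2 (dX L D X w.2.2.2)) (dX L D X w.2.1))) ?_
  exact hop_gp hC.law L z (q1_law hC.law L) (q1_s hC.law L) (Y := dX L D X) hη hC.gp
    (fun w => c2 (dX L D X w.2))

theorem ev3 (hC : ConH p L z y t D X x u φ a v M K e η c) (hη : 0 ≤ η) :
    Pb (Q4 p L z) (fun w => Bad η (cx (dX L D X (eA0 w)) (dX L D X (eA1 w)))
      (dX L D X (eA2 w))) ≤ c := by
  refine le_of_eq_of_le (Marg.Pb_eq (q4_3 hC.law L z)
    (fun w => Bad η (cx (dX L D X w.2.2.2.2.2) (dX L D X w.2.2.2.1)) (dX L D X w.2.1))) ?_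
  exact hop_gp hC.law L z (q2_law hC.law L z) (q2_s hC.law L z) (Y := dX L D X) hη hC.gp
    (fun w => cx (dX L D X w.2.2.2) (dX L D X w.2.1))

theorem ev4 (hC : ConH p L z y t D X x u φ a v M K e η c) (hη : 0 ≤ η) :
    Pb (Q4 p L z) (fun w => Bad η (ha η (a (y (eA0 w)))) (dX L D X (eA0 w))) ≤ c := by
  rw [Marg.Pb_eq (q4_a0 hC.law L z) (fun ω => Bad η (ha η (a (y ω))) (dX L D X ω))]
  have hg : IsLaw (glue p p z z) := glueLaw' hC.law hC.law fun _ => rfl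
  have hm : Marg (glue p p z z) p (fun w => w.1) := marg_fst hC.law.nonneg fun _ => rfl
  rw [← Marg.Pb_eq hm (fun ω => Bad η (ha η (a (y ω))) (dX L D X ω))]
  refine (Pb_mono hg.nonneg fun w hw h => ?_).trans (gp_sel hC.law hC.law z z (fun _ => rfl)
    (dX L D X) hη hC.gp (fun ω => ha η (a (y ω))))
  obtain ⟨h1, h2, h3⟩ := (glue_pos_iff hC.law.nonneg hC.law.nonneg w).1 hw
  have h4 : y w.1 = y w.2 := hC.yz _ _ h1 h2 h3
  unfold Bad at h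
  rw [h4] at h
  exact h

theorem ev5 (hC : ConH p L z y t D X x u φ a v M K e η c) (hη : 0 ≤ η) :
    Pb (Q4 p L z) (fun w => Bad η (cx (a (y (eA0 w))) (dX L D X (eA0 w)))
      (dX L D X (eA1 w))) ≤ c := by
  refine le_of_eq_of_le (Marg.Pb_eq (q4_2 hC.law L z)
    (fun w => Bad η (cx (a (y w.2.2.2)) (dX L D X w.2.2.2)) (dX L D X w.2.1))) ?_
  exact hop_gp hC.law L z (q1_law hC.law L) (q1_s hC.law L) (Y := dX L D X) hη hC.gp
    (fun w => cx (a (y w.2)) (dX L D X w.2))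

theorem ev6 (hC : ConH p L z y t D X x u φ a v M K e η c) (hη : 0 ≤ η) :
    Pb (Q4 p L z) (fun w => Bad η (cx (dX L D X (eA1 w)) (dX L D X (eA2 w)))
      (dX L D X (eA3 w))) ≤ c :=
  hop_gp hC.law L z (q3_law hC.law L z) (q3_s hC.law L z) (Y := dX L D X) hη hC.gp
    (fun w => cx (dX L D X w.2.2.2.1) (dX L D X w.2.1))

/-- The records of the chain. -/
def gy (L : Ω → Λ) (z : Ω → Z) (y : Ω → Y) (D : Λ → 𝒟) (w : W4 Ω) :
    (Z × (𝒟 × (𝒟 × (𝒟 × 𝒟)))) × Y := (gw L z D w, y (eA0 w))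

/-- The derivative as a function of the records and the times. -/
noncomputable def Jg (M : ℕ) (X : 𝒟 → V3) (a : Y → V3) (g : (Z × (𝒟 × (𝒟 × (𝒟 × 𝒟)))) × Y)
    (t1 t2 t3 : ℤ) : ℝ :=
  Jf (a g.2) (X g.1.2.1) (X g.1.2.2.1) (X g.1.2.2.2.1)
    (Pool.STB6.sol ![X g.1.2.1, X g.1.2.2.1, X g.1.2.2.2.1] (X g.1.2.2.2.2) 0)
    (Pool.STB6.sol ![X g.1.2.1, X g.1.2.2.1, X g.1.2.2.2.1] (X g.1.2.2.2.2) 1)
    (((t2 : ℝ) - t1) / M) (((t3 : ℝ) - t2) / M)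

/-- **The good events of the records.** -/
def GG (L : Ω → Λ) (D : Λ → 𝒟) (X : 𝒟 → V3) (y : Ω → Y) (a : Y → V3) (η : ℝ) (w : W4 Ω) : Prop :=
  ¬ Bad η c1 (dX L D X (eA0 w)) ∧ ¬ Bad η (c2 (dX L D X (eA0 w))) (dX L D X (eA1 w)) ∧
    ¬ Bad η (cx (dX L D X (eA0 w)) (dX L D X (eA1 w))) (dX L D X (eA2 w)) ∧
    ¬ Bad η (ha η (a (y (eA0 w)))) (dX L D X (eA0 w)) ∧
    ¬ Bad η (cx (a (y (eA0 w))) (dX L D X (eA0 w))) (dX L D X (eA1 w)) ∧
    ¬ Bad η (cx (dX L D X (eA1 w)) (dX L D X (eA2 w))) (dX L D X (eA3 w))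

theorem GG_bad (hC : ConH p L z y t D X x u φ a v M K e η c) (hη : 0 ≤ η) :
    Pb (Q4 p L z) (fun w => ¬ GG L D X y a η w) ≤ 6 * c := by
  have g0 := (q4_law hC.law L z).nonneg
  have h1 := ev1 hC hη
  have h2 := ev2 hC hη
  have h3 := ev3 hC hη
  have h4 := ev4 hC hη
  have h5 := ev5 hC hη
  have h6 := ev6 hC hη
  have k1 := Pb_or g0 (fun w => Bad η c1 (dX L D X (eA0 w)))
    (fun w => Bad η (c2 (dX L D X (eA0 w))) (dX L D X (eA1 w)))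
  have k2 := Pb_or g0 (fun w => Bad η c1 (dX L D X (eA0 w)) ∨
    Bad η (c2 (dX L D X (eA0 w))) (dX L D X (eA1 w)))
    (fun w => Bad η (cx (dX L D X (eA0 w)) (dX L D X (eA1 w))) (dX L D X (eA2 w)))
  have k3 := Pb_or g0 (fun w => (Bad η c1 (dX L D X (eA0 w)) ∨
    Bad η (c2 (dX L D X (eA0 w))) (dX L D X (eA1 w))) ∨
    Bad η (cx (dX L D X (eA0 w)) (dX L D X (eA1 w))) (dX L D X (eA2 w)))
    (fun w => Bad η (ha η (a (y (eA0 w)))) (dX L D X (eA0 w)))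
  have k4 := Pb_or g0 (fun w => ((Bad η c1 (dX L D X (eA0 w)) ∨
    Bad η (c2 (dX L D X (eA0 w))) (dX L D X (eA1 w))) ∨
    Bad η (cx (dX L D X (eA0 w)) (dX L D X (eA1 w))) (dX L D X (eA2 w))) ∨
    Bad η (ha η (a (y (eA0 w)))) (dX L D X (eA0 w)))
    (fun w => Bad η (cx (a (y (eA0 w))) (dX L D X (eA0 w))) (dX L D X (eA1 w)))
  have k5 := Pb_or g0 (fun w => (((Bad η c1 (dX L D X (eA0 w)) ∨
    Bad η (c2 (dX L D X (eA0 w))) (dX L D X (eA1 w))) ∨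
    Bad η (cx (dX L D X (eA0 w)) (dX L D X (eA1 w))) (dX L D X (eA2 w))) ∨
    Bad η (ha η (a (y (eA0 w)))) (dX L D X (eA0 w))) ∨
    Bad η (cx (a (y (eA0 w))) (dX L D X (eA0 w))) (dX L D X (eA1 w)))
    (fun w => Bad η (cx (dX L D X (eA1 w)) (dX L D X (eA2 w))) (dX L D X (eA3 w)))
  have k6 := Pb_mono g0 (A := fun w => ¬ GG L D X y a η w) (B := fun w =>
    ((((Bad η c1 (dX L D X (eA0 w)) ∨
    Bad η (c2 (dX L D X (eA0 w))) (dX L D X (eA1 w))) ∨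
    Bad η (cx (dX L D X (eA0 w)) (dX L D X (eA1 w))) (dX L D X (eA2 w))) ∨
    Bad η (ha η (a (y (eA0 w)))) (dX L D X (eA0 w))) ∨
    Bad η (cx (a (y (eA0 w))) (dX L D X (eA0 w))) (dX L D X (eA1 w))) ∨
    Bad η (cx (dX L D X (eA1 w)) (dX L D X (eA2 w))) (dX L D X (eA3 w)))
    (fun w _ h => by
      unfold GG at h
      tauto)
  linarith

/-- The number of the integers in an interval. -/
theorem card_lin {α β θ : ℝ} (hα : α ≠ 0) (hθ : 0 ≤ θ) (S : Finset ℤ)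
    (hS : ∀ n ∈ S, |α * n + β| ≤ θ) : (S.card : ℝ) ≤ 2 * θ / |α| + 1 := by
  have hα' : 0 < |α| := abs_pos.2 hα
  have hq : 0 ≤ 2 * θ / |α| := by positivity
  rcases S.eq_empty_or_nonempty with h | h
  · rw [h, Finset.card_empty]
    push_cast
    linarith
  · obtain ⟨n0, hn0, hmin⟩ := S.exists_min_image (fun n => n) h
    have hsub : S ⊆ Finset.Icc n0 (n0 + ⌊2 * θ / |α|⌋) := by
      intro n hn
      refine Finset.mem_Icc.2 ⟨hmin n hn, ?_⟩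
      have h1 := abs_le.1 (hS n hn)
      have h2 := abs_le.1 (hS n0 hn0)
      have h3 : |α * ((n : ℝ) - n0)| ≤ 2 * θ := by
        rw [show α * ((n : ℝ) - n0) = (α * n + β) - (α * n0 + β) by ring]
        exact abs_le.2 ⟨by linarith [h1.1, h2.2], by linarith [h1.2, h2.1]⟩
      rw [abs_mul] at h3
      have h4 : |(n : ℝ) - n0| ≤ 2 * θ / |α| := by
        rw [le_div_iff₀ hα']
        linarith
      have h5 : ((n - n0 : ℤ) : ℝ) ≤ 2 * θ / |α| := by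
        push_cast
        exact (le_abs_self _).trans h4
      have h6 := Int.le_floor.2 h5
      linarith
    have h1 := Finset.card_le_card hsub
    rw [Int.card_Icc] at h1
    have h2 : 0 ≤ ⌊2 * θ / |α|⌋ := Int.floor_nonneg.2 hq
    have h3 : ((n0 + ⌊2 * θ / |α|⌋ + 1 - n0).toNat : ℤ) = ⌊2 * θ / |α|⌋ + 1 := by
      rw [Int.toNat_of_nonneg (by linarith)]
      ring
    have h4 : (S.card : ℤ) ≤ ⌊2 * θ / |α|⌋ + 1 := by
      rw [← h3]
      exact_mod_cast h1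
    have h5 : ((S.card : ℤ) : ℝ) ≤ ((⌊2 * θ / |α|⌋ + 1 : ℤ) : ℝ) := by exact_mod_cast h4
    push_cast at h5
    have h6 := Int.floor_le (2 * θ / |α|)
    have h7 : (S.card : ℝ) ≤ (⌊2 * θ / |α|⌋ : ℝ) + 1 := h5
    linarith

end

end Pool.CFF
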