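import Pool.Agent.H6.STB.Alg

/-!
# Four steps along contact lines

`ar a`: the skew form with the kernel `a`. `Sa`: the area of four steps. `Jf`: its derivative along the
steps with a fixed sum. Two chains with the same start, the same directions and nearly the same end.
-/

set_option autoImplicit false

namespace Pool.CFF

open Finset Real
open Pool.STB (V3 Bx mt)
open Pool.STB6 (sol sol_spec sol_le)

/-- The skew form with the kernel `a`. -/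
def ar (a v w : V3) : ℝ :=
  a 0 * (v 1 * w 2 - v 2 * w 1) + a 1 * (v 2 * w 0 - v 0 * w 2) + a 2 * (v 0 * w 1 - v 1 * w 0)

theorem ar_skew (a v w : V3) : ar a w v = -ar a v w := by
  unfold ar
  ring

theorem ar_self (a v : V3) : ar a v v = 0 := by
  unfold ar
  ring

theorem ar_add (a v w w' : V3) : ar a v (w + w') = ar a v w + ar a v w' := by
  unfold ar
  simp only [Pi.add_apply]
  ring

theorem ar_sub (a v w w' : V3) : ar a v (w - w') = ar a v w - ar a v w' := by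
  unfold ar
  simp only [Pi.sub_apply]
  ring

theorem ar_smul (a v w : V3) (c : ℝ) : ar a v (c • w) = c * ar a v w := by
  unfold ar
  simp only [Pi.smul_apply, smul_eq_mul]
  ring

theorem ar_addl (a v v' w : V3) : ar a (v + v') w = ar a v w + ar a v' w := by
  unfold ar
  simp only [Pi.add_apply]
  ring

theorem ar_smull (a v w : V3) (c : ℝ) : ar a (c • v) w = c * ar a v w := by
  unfold ar
  simp only [Pi.smul_apply, smul_eq_mul]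
  ring

theorem mul_le3 {a b c r s : ℝ} (ha : |a| ≤ 1) (hb : |b| ≤ r) (hc : |c| ≤ s) :
    |a * (b * c)| ≤ r * s := by
  have hr : 0 ≤ r := (abs_nonneg _).trans hb
  have hs : 0 ≤ s := (abs_nonneg _).trans hc
  rw [abs_mul, abs_mul]
  calc |a| * (|b| * |c|) ≤ 1 * (r * s) :=
        mul_le_mul ha (mul_le_mul hb hc (abs_nonneg _) hr) (by positivity) zero_le_one
    _ = r * s := one_mul _

theorem ar_le {a v w : V3} {r s : ℝ} (ha : Bx 1 a) (hv : Bx r v) (hw : Bx s w) :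
    |ar a v w| ≤ 6 * (r * s) := by
  have h1 := abs_le.1 (mul_le3 (ha 0) (hv 1) (hw 2))
  have h2 := abs_le.1 (mul_le3 (ha 0) (hv 2) (hw 1))
  have h3 := abs_le.1 (mul_le3 (ha 1) (hv 2) (hw 0))
  have h4 := abs_le.1 (mul_le3 (ha 1) (hv 0) (hw 2))
  have h5 := abs_le.1 (mul_le3 (ha 2) (hv 0) (hw 1))
  have h6 := abs_le.1 (mul_le3 (ha 2) (hv 1) (hw 0))
  unfold ar
  exact abs_le.2 ⟨by linarith [h1.1, h2.2, h3.1, h4.2, h5.1, h6.2],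
    by linarith [h1.2, h2.1, h3.2, h4.1, h5.2, h6.1]⟩

/-- The area of four steps. -/
def Sa (a X0 X1 X2 X3 : V3) (s0 s1 s2 s3 : ℝ) : ℝ :=
  s0 * s1 * ar a X0 X1 + s0 * s2 * ar a X0 X2 + s0 * s3 * ar a X0 X3 + s1 * s2 * ar a X1 X2 +
    s1 * s3 * ar a X1 X3 + s2 * s3 * ar a X2 X3

/-- The derivative of the area along the steps with a fixed sum. -/
def Jf (a X0 X1 X2 : V3) (α0 α1 s1 s2 : ℝ) : ℝ :=
  -2 * (α0 * ar a X0 X1 * s1 + (α0 * ar a X0 X2 + α1 * ar a X1 X2) * s2)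

theorem Bx_smul {r c : ℝ} {q : V3} (hq : Bx r q) : Bx (|c| * r) (c • q) := fun i => by
  rw [Pi.smul_apply, smul_eq_mul, abs_mul]
  exact mul_le_mul_of_nonneg_left (hq i) (abs_nonneg _)

theorem Bx_add {r r' : ℝ} {q q' : V3} (hq : Bx r q) (hq' : Bx r' q') : Bx (r + r') (q + q') :=
  fun i => (abs_add_le _ _).trans (add_le_add (hq i) (hq' i))

theorem Bx_le {r r' : ℝ} (h : r ≤ r') {q : V3} (hq : Bx r q) : Bx r' q := fun i => (hq i).trans h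

/-- **The end of a chain.** -/
theorem chain_end {a X0 X1 X2 X3 x0 x1 x2 x3 x4 : V3} {s0 s1 s2 s3 u0 u1 u2 u3 u4 κ : ℝ}
    {φ : V3 → ℝ} (ha : Bx 1 a) (hX0 : Bx 1 X0) (hX1 : Bx 1 X1) (hX2 : Bx 1 X2) (hX3 : Bx 1 X3)
    (hx0 : Bx 1 x0) (hs0 : |s0| ≤ 2) (hs1 : |s1| ≤ 2) (hs2 : |s2| ≤ 2) (hs3 : |s3| ≤ 2)
    (h0 : Bx κ (x1 - x0 - s0 • X0)) (h1 : Bx κ (x2 - x1 - s1 • X1))
    (h2 : Bx κ (x3 - x2 - s2 • X2)) (h3 : Bx κ (x4 - x3 - s3 • X3))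
    (k0 : |u1 - u0 - (φ x1 - φ x0) - s0 * ar a x0 X0| ≤ κ)
    (k1 : |u2 - u1 - (φ x2 - φ x1) - s1 * ar a x1 X1| ≤ κ)
    (k2 : |u3 - u2 - (φ x3 - φ x2) - s2 * ar a x2 X2| ≤ κ)
    (k3 : |u4 - u3 - (φ x4 - φ x3) - s3 * ar a x3 X3| ≤ κ) :
    Bx (4 * κ) (x4 - x0 - (s0 • X0 + s1 • X1 + s2 • X2 + s3 • X3)) ∧
      |u4 - u0 - (φ x4 - φ x0) - ar a x0 (x4 - x0) - Sa a X0 X1 X2 X3 s0 s1 s2 s3| ≤ 100 * κ := by
  have hκ : 0 ≤ κ := (abs_nonneg _).trans k0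
  obtain ⟨e0, he0⟩ : ∃ e0 : V3, e0 = x1 - x0 - s0 • X0 := ⟨_, rfl⟩
  obtain ⟨e1, he1⟩ : ∃ e1 : V3, e1 = x2 - x1 - s1 • X1 := ⟨_, rfl⟩
  obtain ⟨e2, he2⟩ : ∃ e2 : V3, e2 = x3 - x2 - s2 • X2 := ⟨_, rfl⟩
  obtain ⟨e3, he3⟩ : ∃ e3 : V3, e3 = x4 - x3 - s3 • X3 := ⟨_, rfl⟩
  rw [← he0] at h0
  rw [← he1] at h1
  rw [← he2] at h2
  rw [← he3] at h3
  have q1 : x1 = x0 + s0 • X0 + e0 := by rw [he0]; abel
  have q2 : x2 = x0 + s0 • X0 + s1 • X1 + e0 + e1 := by rw [he1, he0]; abel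
  have q3 : x3 = x0 + s0 • X0 + s1 • X1 + s2 • X2 + e0 + e1 + e2 := by
    rw [he2, he1, he0]; abel
  have q4 : x4 - x0 = s0 • X0 + s1 • X1 + s2 • X2 + s3 • X3 + (e0 + e1 + e2 + e3) := by
    rw [he3, he2, he1, he0]; abel
  have hE : Bx (4 * κ) (e0 + e1 + e2 + e3) :=
    Bx_le (by linarith) (Bx_add (Bx_add (Bx_add h0 h1) h2) h3)
  refine ⟨?_, ?_⟩
  · have : x4 - x0 - (s0 • X0 + s1 • X1 + s2 • X2 + s3 • X3) = e0 + e1 + e2 + e3 := by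
      rw [q4]; abel
    rw [this]
    exact hE
  · -- the errors
    have a1 := ar_le ha h0 hX1
    have a2 := ar_le ha (Bx_add h0 h1) hX2
    have a3 := ar_le ha (Bx_add (Bx_add h0 h1) h2) hX3
    have a4 := ar_le ha hx0 hE
    have b1 : |s1 * ar a e0 X1| ≤ 12 * κ := by
      rw [abs_mul]
      calc |s1| * |ar a e0 X1| ≤ 2 * (6 * (κ * 1)) :=
            mul_le_mul hs1 a1 (abs_nonneg _) (by norm_num)
        _ = 12 * κ := by ring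
    have b2 : |s2 * ar a (e0 + e1) X2| ≤ 24 * κ := by
      rw [abs_mul]
      calc |s2| * |ar a (e0 + e1) X2| ≤ 2 * (6 * ((κ + κ) * 1)) :=
            mul_le_mul hs2 a2 (abs_nonneg _) (by norm_num)
        _ = 24 * κ := by ring
    have b3 : |s3 * ar a (e0 + e1 + e2) X3| ≤ 36 * κ := by
      rw [abs_mul]
      calc |s3| * |ar a (e0 + e1 + e2) X3| ≤ 2 * (6 * ((κ + κ + κ) * 1)) :=
            mul_le_mul hs3 a3 (abs_nonneg _) (by norm_num)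
        _ = 36 * κ := by ring
    have c1 : ar a x1 X1 = ar a x0 X1 + s0 * ar a X0 X1 + ar a e0 X1 := by
      rw [q1, ar_addl, ar_addl, ar_smull]
    have c2 : ar a x2 X2 = ar a x0 X2 + s0 * ar a X0 X2 + s1 * ar a X1 X2 + ar a (e0 + e1) X2 := by
      rw [q2, show x0 + s0 • X0 + s1 • X1 + e0 + e1 = x0 + s0 • X0 + s1 • X1 + (e0 + e1) by abel,
        ar_addl, ar_addl, ar_addl, ar_smull, ar_smull]
    have c3 : ar a x3 X3 = ar a x0 X3 + s0 * ar a X0 X3 + s1 * ar a X1 X3 + s2 * ar a X2 X3 +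
        ar a (e0 + e1 + e2) X3 := by
      rw [q3, show x0 + s0 • X0 + s1 • X1 + s2 • X2 + e0 + e1 + e2 =
        x0 + s0 • X0 + s1 • X1 + s2 • X2 + (e0 + e1 + e2) by abel,
        ar_addl, ar_addl, ar_addl, ar_addl, ar_smull, ar_smull, ar_smull]
    have c4 : ar a x0 (x4 - x0) = s0 * ar a x0 X0 + s1 * ar a x0 X1 + s2 * ar a x0 X2 +
        s3 * ar a x0 X3 + ar a x0 (e0 + e1 + e2 + e3) := by
      rw [q4, ar_add, ar_add, ar_add, ar_add, ar_smul, ar_smul, ar_smul, ar_smul]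
    rw [c1] at k1
    rw [c2] at k2
    rw [c3] at k3
    rw [c4]
    unfold Sa
    obtain ⟨K0, K0'⟩ := abs_le.1 k0
    obtain ⟨K1, K1'⟩ := abs_le.1 k1
    obtain ⟨K2, K2'⟩ := abs_le.1 k2
    obtain ⟨K3, K3'⟩ := abs_le.1 k3
    obtain ⟨B1, B1'⟩ := abs_le.1 b1
    obtain ⟨B2, B2'⟩ := abs_le.1 b2
    obtain ⟨B3, B3'⟩ := abs_le.1 b3
    obtain ⟨A4, A4'⟩ := abs_le.1 a4
    exact abs_le.2 ⟨by nlinarith, by nlinarith⟩

/-- **The area on the steps with a nearly fixed sum.** -/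
theorem Sa_sub {a X0 X1 X2 X3 : V3} {α0 α1 α2 : ℝ} (ha : Bx 1 a) (hX0 : Bx 1 X0) (hX1 : Bx 1 X1)
    (hX2 : Bx 1 X2) (hX3 : Bx 1 X3) (hα : α0 • X0 + α1 • X1 + α2 • X2 = X3)
    {s0 s1 s2 s3 s0' s1' s2' s3' r0 r1 r2 R : ℝ} (hs0 : |s0| ≤ 2) (hs1 : |s1| ≤ 2)
    (hs2 : |s2| ≤ 2) (hs3 : |s3| ≤ 2) (hs0' : |s0'| ≤ 2) (hs1' : |s1'| ≤ 2) (hs2' : |s2'| ≤ 2)
    (hs3' : |s3'| ≤ 2) (h0 : s0 - s0' + (s3 - s3') * α0 = r0)
    (h1 : s1 - s1' + (s3 - s3') * α1 = r1) (h2 : s2 - s2' + (s3 - s3') * α2 = r2)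
    (hr0 : |r0| ≤ R) (hr1 : |r1| ≤ R) (hr2 : |r2| ≤ R) :
    |Sa a X0 X1 X2 X3 s0 s1 s2 s3 - Sa a X0 X1 X2 X3 s0' s1' s2' s3' -
      (s3 - s3') * ((Jf a X0 X1 X2 α0 α1 s1 s2 + Jf a X0 X1 X2 α0 α1 s1' s2') / 2)| ≤
      108 * R := by
  have hR : 0 ≤ R := (abs_nonneg _).trans hr0
  have A03 : ar a X0 X3 = α1 * ar a X0 X1 + α2 * ar a X0 X2 := by
    rw [← hα, ar_add, ar_add, ar_smul, ar_smul, ar_smul, ar_self]
    ring
  have A13 : ar a X1 X3 = -(α0 * ar a X0 X1) + α2 * ar a X1 X2 := by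
    rw [← hα, ar_add, ar_add, ar_smul, ar_smul, ar_smul, ar_self, ar_skew a X0 X1]
    ring
  have A23 : ar a X2 X3 = -(α0 * ar a X0 X2) - α1 * ar a X1 X2 := by
    rw [← hα, ar_add, ar_add, ar_smul, ar_smul, ar_smul, ar_self, ar_skew a X0 X2,
      ar_skew a X1 X2]
    ring
  have key : Sa a X0 X1 X2 X3 s0 s1 s2 s3 - Sa a X0 X1 X2 X3 s0' s1' s2' s3' -
      (s3 - s3') * ((Jf a X0 X1 X2 α0 α1 s1 s2 + Jf a X0 X1 X2 α0 α1 s1' s2') / 2) =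
      r0 * ((s1 + s1') / 2 * ar a X0 X1 + (s2 + s2') / 2 * ar a X0 X2 +
        (s3 + s3') / 2 * ar a X0 X3) +
      r1 * ((s0 + s0') / 2 * ar a X0 X1 + (s2 + s2') / 2 * ar a X1 X2 +
        (s3 + s3') / 2 * ar a X1 X3) +
      r2 * ((s0 + s0') / 2 * ar a X0 X2 + (s1 + s1') / 2 * ar a X1 X2 +
        (s3 + s3') / 2 * ar a X2 X3) := by
    rw [← h0, ← h1, ← h2]
    unfold Sa Jf
    rw [A03, A13, A23]
    ring
  rw [key]
  have hA : ∀ {v w : V3}, Bx 1 v → Bx 1 w → |ar a v w| ≤ 6 := fun hv hw => by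
    have := ar_le ha hv hw
    linarith
  have hb : ∀ {s s' A : ℝ}, |s| ≤ 2 → |s'| ≤ 2 → |A| ≤ 6 → |(s + s') / 2 * A| ≤ 12 := by
    intro s s' A h h' hA
    rw [abs_mul]
    have h3 : |(s + s') / 2| ≤ 2 := by
      obtain ⟨p1, p2⟩ := abs_le.1 h
      obtain ⟨p3, p4⟩ := abs_le.1 h'
      exact abs_le.2 ⟨by linarith, by linarith⟩
    calc |(s + s') / 2| * |A| ≤ 2 * 6 := mul_le_mul h3 hA (abs_nonneg _) (by norm_num)
      _ = 12 := by norm_num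
  have hc : ∀ {r p q m : ℝ}, |r| ≤ R → |p| ≤ 12 → |q| ≤ 12 → |m| ≤ 12 →
      |r * (p + q + m)| ≤ 36 * R := by
    intro r p q m hr hp hq hm
    rw [abs_mul]
    have h3 : |p + q + m| ≤ 36 := by
      obtain ⟨p1, p2⟩ := abs_le.1 hp
      obtain ⟨p3, p4⟩ := abs_le.1 hq
      obtain ⟨p5, p6⟩ := abs_le.1 hm
      exact abs_le.2 ⟨by linarith, by linarith⟩
    calc |r| * |p + q + m| ≤ R * 36 := mul_le_mul hr h3 (abs_nonneg _) hR
      _ = 36 * R := by ring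
  have t0 := hc hr0 (hb hs1 hs1' (hA hX0 hX1)) (hb hs2 hs2' (hA hX0 hX2)) (hb hs3 hs3' (hA hX0 hX3))
  have t1 := hc hr1 (hb hs0 hs0' (hA hX0 hX1)) (hb hs2 hs2' (hA hX1 hX2)) (hb hs3 hs3' (hA hX1 hX3))
  have t2 := hc hr2 (hb hs0 hs0' (hA hX0 hX2)) (hb hs1 hs1' (hA hX1 hX2)) (hb hs3 hs3' (hA hX2 hX3))
  obtain ⟨T0, T0'⟩ := abs_le.1 t0
  obtain ⟨T1, T1'⟩ := abs_le.1 t1
  obtain ⟨T2, T2'⟩ := abs_le.1 t2
  exact abs_le.2 ⟨by linarith, by linarith⟩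

/-- **Two chains**: the steps. -/
theorem two_steps {X0 X1 X2 X3 : V3} (hX0 : Bx 1 X0) (hX1 : Bx 1 X1) (hX2 : Bx 1 X2) {d : ℝ}
    (hd : 0 < d) (hdet : d ≤ |(mt ![X0, X1, X2]).det|) {s0 s1 s2 s3 s0' s1' s2' s3' ε : ℝ}
    (h : Bx ε (s0 • X0 + s1 • X1 + s2 • X2 + s3 • X3 - (s0' • X0 + s1' • X1 + s2' • X2 + s3' • X3))) :
    ∃ r : Fin 3 → ℝ, (∀ i, |r i| ≤ 6 * ε / d) ∧
      s0 - s0' + (s3 - s3') * sol ![X0, X1, X2] X3 0 = r 0 ∧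
      s1 - s1' + (s3 - s3') * sol ![X0, X1, X2] X3 1 = r 1 ∧
      s2 - s2' + (s3 - s3') * sol ![X0, X1, X2] X3 2 = r 2 := by
  have hd0 : (mt ![X0, X1, X2]).det ≠ 0 := by
    intro h0
    rw [h0, abs_zero] at hdet
    linarith
  have hXa : ∀ a, Bx 1 ((![X0, X1, X2] : Fin 3 → V3) a) := by
    intro a
    fin_cases a
    exacts [hX0, hX1, hX2]
  have h3 := sol_spec ![X0, X1, X2] hd0 X3
  rw [Fin.sum_univ_three] at h3
  simp only [Matrix.cons_val_zero, Matrix.cons_val_one, Matrix.cons_val_two, Matrix.head_cons,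
    Matrix.tail_cons, Matrix.cons_val] at h3
  obtain ⟨α, hα⟩ : ∃ α, α = sol ![X0, X1, X2] X3 := ⟨_, rfl⟩
  rw [← hα] at h3 ⊢
  have h4 : s0 • X0 + s1 • X1 + s2 • X2 + s3 • X3 - (s0' • X0 + s1' • X1 + s2' • X2 + s3' • X3) =
      ∑ i, (![s0 - s0' + (s3 - s3') * α 0, s1 - s1' + (s3 - s3') * α 1,
        s2 - s2' + (s3 - s3') * α 2] : Fin 3 → ℝ) i • (![X0, X1, X2] : Fin 3 → V3) i := by
    rw [Fin.sum_univ_three]
    simp only [Matrix.cons_val_zero, Matrix.cons_val_one, Matrix.cons_val_two, Matrix.head_cons,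
      Matrix.tail_cons, Matrix.cons_val]
    conv_lhs => rw [← h3]
    module
  rw [h4] at h
  refine ⟨![s0 - s0' + (s3 - s3') * α 0, s1 - s1' + (s3 - s3') * α 1,
        s2 - s2' + (s3 - s3') * α 2], fun i => ?_, rfl, rfl, rfl⟩
  have h5 := sol_le ![X0, X1, X2] hd hXa hdet h i
  rw [Pool.STB6.sol_comb _ hd0] at h5
  exact h5

end Pool.CFF
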