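import Pool.Agent.H98.STB.Gp
import Pool.Agent.H6.STB.Str

/-!
# One hop along a line

`Hop p L z Q s`: from the sample `s` of a law `Q`, a new sample with the same record, and a further
sample of its line. The entropies, the marginals and the general position of the new direction.
-/

set_option autoImplicit false

namespace Pool.CFF

open Finset Real
open Pool.Agent.H49.Ent Pool.Agent.H32.Dense Pool.STK Pool.MIC
open Pool.BFL (Pb)
open Pool.STB (V3 Bx Pb_mono Pb_or Pb_le2 glueLaw' gp_sel)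

section

variable {Ω Λ Z W : Type} [Fintype Ω] [Fintype W]

/-- The new sample over the record of `s`. -/
noncomputable def Hz (p : Ω → ℝ) (z : Ω → Z) (Q : W → ℝ) (s : W → Ω) : Ω × W → ℝ :=
  glue p Q z (fun w => z (s w))

/-- **One hop.** -/
noncomputable def Hop (p : Ω → ℝ) (L : Ω → Λ) (z : Ω → Z) (Q : W → ℝ) (s : W → Ω) :
    Ω × (Ω × W) → ℝ :=
  glue p (Hz p z Q s) L (fun w => L w.1)

variable {p : Ω → ℝ} (hp : IsLaw p) (L : Ω → Λ) (z : Ω → Z) {Q : W → ℝ} (hQ : IsLaw Q)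
  {s : W → Ω} (hs : Marg Q p s)

include hs in
theorem hz_eq (u : Z) : law p z u = law Q (fun w => z (s w)) u := (hs.law z u).symm

include hp hQ hs

theorem hz_law : IsLaw (Hz p z Q s) := glueLaw' hp hQ (hz_eq z hs)

theorem hz_s : Marg (Hz p z Q s) p (fun w => w.1) := marg_fst hp.nonneg (hz_eq z hs)

theorem hz_w : Marg (Hz p z Q s) Q (fun w => w.2) := marg_snd hQ.nonneg (hz_eq z hs)

theorem hop_eq (u : Λ) : law p L u = law (Hz p z Q s) (fun w => L w.1) u :=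
  ((hz_s hp z hQ hs).law L u).symm

theorem hop_law : IsLaw (Hop p L z Q s) := glueLaw' hp (hz_law hp z hQ hs) (hop_eq hp L z hQ hs)

theorem hop_s : Marg (Hop p L z Q s) p (fun w => w.1) := marg_fst hp.nonneg (hop_eq hp L z hQ hs)

theorem hop_z : Marg (Hop p L z Q s) (Hz p z Q s) (fun w => w.2) :=
  marg_snd (hz_law hp z hQ hs).nonneg (hop_eq hp L z hQ hs)

theorem hop_w : Marg (Hop p L z Q s) Q (fun w => w.2.2) :=
  (hop_z hp L z hQ hs).comp (hz_w hp z hQ hs)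

/-- The two samples of the new line. -/
theorem hop_two : Marg (Hop p L z Q s) (glue p p L L) (fun w => (w.1, w.2.1)) :=
  Marg.glue (Z₁ := L) (Z₂ := L) (Marg.id p) (hz_s hp z hQ hs)

theorem hop_pos {w : Ω × (Ω × W)} (h : 0 < Hop p L z Q s w) :
    0 < p w.1 ∧ 0 < p w.2.1 ∧ 0 < Q w.2.2 ∧ L w.1 = L w.2.1 ∧ z w.2.1 = z (s w.2.2) := by
  obtain ⟨h1, h2, h3⟩ := (glue_pos_iff hp.nonneg (hz_law hp z hQ hs).nonneg w).1 h
  obtain ⟨h4, h5, h6⟩ := (glue_pos_iff hp.nonneg hQ.nonneg w.2).1 h2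
  exact ⟨h1, h4, h5, h3, h6⟩

/-- **The entropies of a hop.** -/
theorem hop_H {S T T' : Type} (F : W → S) (D : Λ → T) (t : Ω → T') :
    H Q F + CH p (fun ω => D (L ω)) z + CH p t L ≤
      H (Hop p L z Q s) (fun w => (t w.1, (D (L w.2.1), F w.2.2))) := by
  have h0 := (hz_law hp z hQ hs).nonneg
  have g0 := (hop_law hp L z hQ hs).nonneg
  -- the direction
  have a1 : CH p (fun ω => D (L ω)) z ≤
      CH (Hz p z Q s) (fun w => D (L w.1)) (fun w => F w.2) := by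
    have h1 := CH_glue_fst (p₁ := p) (p₂ := Q) (Z₁ := z) (Z₂ := fun w => z (s w)) hp.nonneg
      hQ.nonneg (hz_eq z hs) (fun ω => D (L ω)) (Y := z) (fun w => (F w, z (s w)))
      (fun _ _ _ _ h => h)
    rw [← h1]
    exact CH_mono_cond h0 fun w w' a b h => by
      have k := (Prod.ext_iff.1 h).2
      exact (Prod.ext_iff.1 k).1
  -- the time
  have a2 : CH p t L ≤
      CH (Hop p L z Q s) (fun w => t w.1) (fun w => (D (L w.2.1), F w.2.2)) := by
    have h1 := CH_glue_fst (p₁ := p) (p₂ := Hz p z Q s) (Z₁ := L) (Z₂ := fun w => L w.1) hp.nonneg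
      h0 (hop_eq hp L z hQ hs) t (Y := L) (fun w => (D (L w.1), F w.2)) (fun _ _ _ _ h => h)
    rw [← h1]
    exact CH_mono_cond g0 fun w w' a b h => (Prod.ext_iff.1 h).2
  have a3 : H (Hop p L z Q s) (fun w => (D (L w.2.1), F w.2.2)) =
      H (Hz p z Q s) (fun w => (D (L w.1), F w.2)) :=
    (hop_z hp L z hQ hs).H (fun w => (D (L w.1), F w.2))
  have a4 : H (Hz p z Q s) (fun w => F w.2) = H Q F := (hz_w hp z hQ hs).H F
  unfold CH at a1 a2 ⊢
  linarith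

/-- **The general position of the new direction.** -/
theorem hop_gp {Y : Ω → V3} {η c : ℝ} (hη : 0 ≤ η)
    (gp : ∀ H : Z → V3, (∀ r, Bx 1 (H r) ∧ ∃ i, |H r i| = 1) →
      Pb p (fun ω => |∑ i, H (z ω) i * Y ω i| ≤ η) ≤ c) (G : W → V3) :
    Pb (Hop p L z Q s) (fun w => ∃ j, G w.2.2 j ≠ 0 ∧
      |∑ i, G w.2.2 i * Y w.2.1 i| ≤ η * |G w.2.2 j|) ≤ c := by
  rw [Marg.Pb_eq (hop_z hp L z hQ hs)
    (fun w => ∃ j, G w.2 j ≠ 0 ∧ |∑ i, G w.2 i * Y w.1 i| ≤ η * |G w.2 j|)]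
  exact gp_sel hp hQ z (fun w => z (s w)) (hz_eq z hs) Y hη gp G

end

/-- **Entropy of an integer with two-sample control.** -/
theorem CH_near2 {Ω T : Type} [Fintype Ω] {q : Ω → ℝ} (hq : IsLaw q) (ξ : Ω → ℤ) (W : Ω → T)
    (G : Ω → Prop) {A : ℝ} (hA : 1 ≤ A) {M : ℕ} (hM : ∀ ω, 0 < q ω → |ξ ω| ≤ (M : ℤ))
    (hG : ∀ ω ω', 0 < q ω → 0 < q ω' → G ω → G ω' → W ω = W ω' → |(ξ ω : ℝ) - ξ ω'| ≤ A) :
    CH q ξ W ≤ Real.log 2 + Real.log (3 * A) + Pb q (fun ω => ¬ G ω) * Real.log (2 * M + 1) := by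
  classical
  refine Pool.STB6.CH_near hq ξ W (fun v => if h : ∃ ω, 0 < q ω ∧ G ω ∧ W ω = v then
    ((ξ h.choose : ℤ) : ℝ) else 0) G hA hM fun ω hω hg => ?_
  have h : ∃ ω', 0 < q ω' ∧ G ω' ∧ W ω' = W ω := ⟨ω, hω, hg, rfl⟩
  rw [dif_pos h]
  obtain ⟨h1, h2, h3⟩ := h.choose_spec
  exact hG ω _ hω h1 hg h2 h3.symm

end Pool.CFF
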