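import Pool.Agent.H6.CFF.Evt
import Pool.Agent.H6.STB.Rd4
import Pool.Agent.H6.STB.Str2

/-!
# The derivative of the area is visible
-/

set_option autoImplicit false

namespace Pool.CFF

open Finset Real
open Pool.Agent.H49.Ent Pool.Agent.H32.Dense Pool.STK Pool.MIC Pool.OWN68
open Pool.BFL (Pb)
open Pool.STB (V3 Bx cv mt Pb_mono Pb_or Pb_le2 glueLaw')
open Pool.STB6 (sol sol_spec)

/-- The entropy of a bounded integer. -/
theorem CH_T {Ω T : Type} [Fintype Ω] {q : Ω → ℝ} (hq : IsLaw q) (ξ : Ω → ℤ) (W : Ω → T) {M : ℕ}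
    (hM : ∀ ω, 0 < q ω → |ξ ω| ≤ (M : ℤ)) : CH q ξ W ≤ Real.log (2 * M + 1) := by
  have hc : (Finset.Icc (-(M : ℤ)) M).card = 2 * M + 1 := by
    rw [Int.card_Icc]
    omega
  have h2 := CH_le_card hq.nonneg hq.sum_one ξ W (fun _ => Finset.Icc (-(M : ℤ)) M)
    (fun ω hω => Finset.mem_Icc.2 (abs_le.1 (hM ω hω)))
  rw [Ex_const hq.sum_one, hc] at h2
  push_cast at h2
  exact h2

section

variable {Ω Λ Z Y 𝒟 : Type} [Fintype Ω] {p : Ω → ℝ} {L : Ω → Λ} {z : Ω → Z} {y : Ω → Y} {t : Ω → ℤ}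
  {D : Λ → 𝒟} {X : 𝒟 → V3} {x : Z → V3} {u : Z → ℝ} {φ : Y → V3 → ℝ} {a : Y → V3} {v : Z → ℤ}
  {M : ℕ} {K e η c : ℝ}

/-- The solution with respect to the directions. -/
theorem sol3 {X0 X1 X2 X3 : V3} (hd : (mt ![X0, X1, X2]).det ≠ 0) :
    sol ![X0, X1, X2] X3 0 • X0 + sol ![X0, X1, X2] X3 1 • X1 + sol ![X0, X1, X2] X3 2 • X2 =
      X3 := by
  have h3 := sol_spec ![X0, X1, X2] hd X3
  rw [Fin.sum_univ_three] at h3
  simpa only [Matrix.cons_val_zero, Matrix.cons_val_one, Matrix.cons_val_two, Matrix.head_cons,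
    Matrix.tail_cons, Matrix.cons_val] using h3

/-- The coefficient of the first time. -/
theorem Jg_lin (X : 𝒟 → V3) (a : Y → V3) (g : (Z × (𝒟 × (𝒟 × (𝒟 × 𝒟)))) × Y) (t2 t3 : ℤ) :
    ∃ β : ℝ, ∀ n : ℤ, Jg M X a g n t2 t3 =
      2 * (sol ![X g.1.2.1, X g.1.2.2.1, X g.1.2.2.2.1] (X g.1.2.2.2.2) 0 *
        ar (a g.2) (X g.1.2.1) (X g.1.2.2.1)) / M * n + β := by
  refine ⟨Jg M X a g 0 t2 t3, fun n => ?_⟩
  unfold Jg Jf
  push_cast
  ring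

theorem t_det (hC : ConH p L z y t D X x u φ a v M K e η c) {w : W4 Ω} (hw : 0 < Q4 p L z w) :
    (t (eA1 w) = t (eB0 w) ∧ t (eA2 w) = t (eB1 w) ∧ t (eA3 w) = t (eB2 w)) ∧
      (y (eA1 w) = y (eA0 w) ∧ y (eA2 w) = y (eA0 w) ∧ y (eA3 w) = y (eA0 w) ∧
        y (eB3 w) = y (eA0 w)) := by
  obtain ⟨⟨a1, a2, a3, a4, a5, a6, a7, a8⟩, ⟨b1, b2, b3, b4⟩, ⟨d1, d2, d3⟩⟩ :=
    q4_pos hC.law L z hw
  have y1 : y (eA1 w) = y (eA0 w) := by
    rw [hC.yz _ _ a3 a2 d1, hC.yL _ _ a1 a2 b1]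
  have y2 : y (eA2 w) = y (eA0 w) := by
    rw [hC.yz _ _ a5 a4 d2, ← hC.yL _ _ a3 a4 b2, y1]
  have y3 : y (eA3 w) = y (eA0 w) := by
    rw [hC.yz _ _ a7 a6 d3, ← hC.yL _ _ a5 a6 b3, y2]
  have y4 : y (eB3 w) = y (eA0 w) := by
    rw [← hC.yL _ _ a7 a8 b4, y3]
  exact ⟨⟨hC.tz _ _ a3 a2 d1, hC.tz _ _ a5 a4 d2, hC.tz _ _ a7 a6 d3⟩, y1, y2, y3, y4⟩

theorem gy_det (hC : ConH p L z y t D X x u φ a v M K e η c) {w w' : W4 Ω}
    (hw : 0 < Q4 p L z w) (hw' : 0 < Q4 p L z w') (h : gw L z D w = gw L z D w') :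
    gy L z y D w = gy L z y D w' := by
  obtain ⟨⟨a1, _⟩, _⟩ := q4_pos hC.law L z hw
  obtain ⟨⟨a1', _⟩, _⟩ := q4_pos hC.law L z hw'
  exact Prod.ext h (hC.yz _ _ a1 a1' (Prod.ext_iff.1 h).1)

/-- The first time is full given the rest. -/
theorem t1_full (hC : ConH p L z y t D X x u φ a v M K e η c) :
    Real.log (2 * M + 1) - 8 * e ≤ CH (Q4 p L z) (fun w => t (eB0 w))
      (fun w => ((t (eB1 w), (t (eB2 w), t (eB3 w))), gy L z y D w)) := by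
  have hq := q4_law hC.law L z
  have g0 := hq.nonneg
  have h1 := tw_full hC
  have h2 := CH_chain g0 (fun w => t (eB0 w)) (fun w => (t (eB1 w), (t (eB2 w), t (eB3 w))))
    (gw L z D)
  have h3 := CH_subadd g0 (fun w => t (eB1 w)) (fun w => (t (eB2 w), t (eB3 w))) (gw L z D)
  have h4 := CH_subadd g0 (fun w => t (eB2 w)) (fun w => t (eB3 w)) (gw L z D)
  have hb : ∀ w, 0 < Q4 p L z w → |t (eB1 w)| ≤ (M : ℤ) ∧ |t (eB2 w)| ≤ (M : ℤ) ∧
      |t (eB3 w)| ≤ (M : ℤ) := by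
    intro w hw
    obtain ⟨⟨a1, a2, a3, a4, a5, a6, a7, a8⟩, _⟩ := q4_pos hC.law L z hw
    exact ⟨hC.tM _ a4, hC.tM _ a6, hC.tM _ a8⟩
  have k1 := CH_T hq (fun w => t (eB1 w)) (gw L z D) (fun w hw => (hb w hw).1)
  have k2 := CH_T hq (fun w => t (eB2 w)) (gw L z D) (fun w hw => (hb w hw).2.1)
  have k3 := CH_T hq (fun w => t (eB3 w)) (gw L z D) (fun w hw => (hb w hw).2.2)
  have h5 : CH (Q4 p L z) (fun w => t (eB0 w))
      (fun w => ((t (eB1 w), (t (eB2 w), t (eB3 w))), gw L z D w)) ≤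
      CH (Q4 p L z) (fun w => t (eB0 w))
      (fun w => ((t (eB1 w), (t (eB2 w), t (eB3 w))), gy L z y D w)) :=
    CH_mono_cond g0 fun w w' hw hw' h =>
      Prod.ext (Prod.ext_iff.1 h).1 (gy_det hC hw hw' (Prod.ext_iff.1 h).2)
  have h6 : CH (Q4 p L z) (tw t) (gw L z D) =
      CH (Q4 p L z) (fun w => (t (eB0 w), (t (eB1 w), (t (eB2 w), t (eB3 w))))) (gw L z D) := rfl
  linarith

/-- **The derivative of the area is visible.** -/
theorem ev7 (hC : ConH p L z y t D X x u φ a v M K e η c) (hη : 0 < η) (hM : 1 ≤ M) {ρ : ℝ}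
    (hρ : 0 < ρ) (hρM : 1 ≤ ρ * M) :
    Pb (Q4 p L z) (fun w => GG L D X y a η w ∧ ¬ ρ * η ^ 4 / 3 ≤
      |Jg M X a (gy L z y D w) (t (eB0 w)) (t (eB1 w)) (t (eB2 w))|) * Real.log (1 / ρ) ≤
      8 * e + Real.log 2 := by
  classical
  have hq := q4_law hC.law L z
  have hc : (Finset.Icc (-(M : ℤ)) M).card = 2 * M + 1 := by
    rw [Int.card_Icc]
    omega
  have hM0 : (0 : ℝ) < M := by exact_mod_cast hM
  refine Pool.STB6.read_set hq (fun w => ((t (eB1 w), (t (eB2 w), t (eB3 w))), gy L z y D w))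
    (fun w => t (eB0 w)) (Finset.Icc (-(M : ℤ)) M)
    (fun W => (Finset.Icc (-(M : ℤ)) M).filter fun n =>
      |Jg M X a W.2 n W.1.1 W.1.2.1| ≤ ρ * η ^ 4 / 3) _ hρ ?_ ?_ ?_
  · intro w hw
    obtain ⟨⟨a1, a2, _⟩, _⟩ := q4_pos hC.law L z hw
    exact Finset.mem_Icc.2 (abs_le.1 (hC.tM _ a2))
  · rw [hc]
    push_cast
    exact t1_full hC
  · rintro w hw ⟨⟨g1, g2, g3, g4, g5, g6⟩, hJ⟩
    obtain ⟨⟨a1, a2, _⟩, _⟩ := q4_pos hC.law L z hw
    refine ⟨Finset.mem_filter.2 ⟨Finset.mem_Icc.2 (abs_le.1 (hC.tM _ a2)), (not_le.1 hJ).le⟩, ?_⟩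
    rw [hc]
    obtain ⟨β, hβ⟩ := Jg_lin (M := M) X a (gy L z y D w) (t (eB1 w)) (t (eB2 w))
    have hdet := good_det hη g1 g2 g3
    have hd0 : (mt ![dX L D X (eA0 w), dX L D X (eA1 w), dX L D X (eA2 w)]).det ≠ 0 := by
      intro h0
      rw [h0, abs_zero] at hdet
      have : 0 < η ^ 3 := by positivity
      linarith
    have hal : η / 3 ≤ |sol ![dX L D X (eA0 w), dX L D X (eA1 w), dX L D X (eA2 w)]
        (dX L D X (eA3 w)) 0| :=
      good_al hη (hC.X1 _) hd0 (sol3 (X3 := dX L D X (eA3 w)) hd0) g6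
    have har := good_ar hη (hC.aη _ a1) g4 g5
    obtain ⟨A, hA⟩ : ∃ A, A = sol ![dX L D X (eA0 w), dX L D X (eA1 w), dX L D X (eA2 w)]
      (dX L D X (eA3 w)) 0 := ⟨_, rfl⟩
    obtain ⟨B, hB⟩ : ∃ B, B = ar (a (y (eA0 w))) (dX L D X (eA0 w)) (dX L D X (eA1 w)) :=
      ⟨_, rfl⟩
    rw [← hA] at hal
    rw [← hB] at har
    have hβ' : ∀ n : ℤ, Jg M X a (gy L z y D w) n (t (eB1 w)) (t (eB2 w)) =
        2 * (A * B) / M * n + β := by
      intro n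
      rw [hβ n, hA, hB]
      rfl
    have hAB : η ^ 4 / 3 ≤ |A * B| := by
      rw [abs_mul]
      calc η ^ 4 / 3 = η / 3 * η ^ 3 := by ring
        _ ≤ |A| * |B| := mul_le_mul hal har (by positivity) (abs_nonneg _)
    have hAB0 : A * B ≠ 0 := by
      intro h0
      rw [h0, abs_zero] at hAB
      have : 0 < η ^ 4 := by positivity
      linarith
    have h1 := card_lin (α := 2 * (A * B) / M) (β := β) (θ := ρ * η ^ 4 / 3) (by
      have : (M : ℝ) ≠ 0 := hM0.ne'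
      positivity) (by positivity)
      ((Finset.Icc (-(M : ℤ)) M).filter fun n =>
        |Jg M X a (gy L z y D w) n (t (eB1 w)) (t (eB2 w))| ≤ ρ * η ^ 4 / 3) (by
        intro n hn
        have := (Finset.mem_filter.1 hn).2
        rw [hβ' n] at this
        exact this)
    refine h1.trans ?_
    have h2 : |2 * (A * B) / M| = 2 * |A * B| / M := by
      rw [abs_div, abs_mul, abs_of_pos hM0, abs_of_pos (by norm_num : (0 : ℝ) < 2)]
    rw [h2]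
    have hpos : 0 < |A * B| := abs_pos.2 hAB0
    have h3 : 2 * (ρ * η ^ 4 / 3) / (2 * |A * B| / M) ≤ ρ * M := by
      rw [div_le_iff₀ (by positivity)]
      have e1 : ρ * (M : ℝ) * (2 * |A * B| / M) = 2 * ρ * |A * B| := by
        field_simp
      rw [e1]
      nlinarith
    push_cast
    nlinarith

end

end Pool.CFF
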