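import Pool.Agent.H6.CFF.Jev

/-!
# Two chains with the same start, the same directions and the same end
-/

set_option autoImplicit false

namespace Pool.CFF

open Finset Real
open Pool.Agent.H49.Ent Pool.Agent.H32.Dense Pool.STK Pool.MIC Pool.OWN68
open Pool.BFL (Pb)
open Pool.STB (V3 Bx cv mt Pb_mono Pb_or Pb_le2 glueLaw')
open Pool.STB6 (sol sol_spec)

section

variable {Ω Λ Z Y 𝒟 : Type} [Fintype Ω] {p : Ω → ℝ} {L : Ω → Λ} {z : Ω → Z} {y : Ω → Y} {t : Ω → ℤ}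
  {D : Λ → 𝒟} {X : 𝒟 → V3} {x : Z → V3} {u : Z → ℝ} {φ : Y → V3 → ℝ} {a : Y → V3} {v : Z → ℤ}
  {M : ℕ} {K e η c : ℝ}

noncomputable def s0 (M : ℕ) (t : Ω → ℤ) (w : W4 Ω) : ℝ := ((t (eB0 w) : ℝ) - t (eA0 w)) / M
noncomputable def s1 (M : ℕ) (t : Ω → ℤ) (w : W4 Ω) : ℝ := ((t (eB1 w) : ℝ) - t (eB0 w)) / M
noncomputable def s2 (M : ℕ) (t : Ω → ℤ) (w : W4 Ω) : ℝ := ((t (eB2 w) : ℝ) - t (eB1 w)) / M
noncomputable def s3 (M : ℕ) (t : Ω → ℤ) (w : W4 Ω) : ℝ := ((t (eB3 w) : ℝ) - t (eB2 w)) / M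

theorem st_le {a b : ℤ} (hM : 1 ≤ M) (ha : |a| ≤ (M : ℤ)) (hb : |b| ≤ (M : ℤ)) :
    |((a : ℝ) - b) / M| ≤ 2 := by
  have hM0 : (0 : ℝ) < M := by exact_mod_cast hM
  have h1 : |(a : ℝ)| ≤ M := by exact_mod_cast ha
  have h2 : |(b : ℝ)| ≤ M := by exact_mod_cast hb
  obtain ⟨a1, a2⟩ := abs_le.1 h1
  obtain ⟨b1, b2⟩ := abs_le.1 h2
  rw [abs_div, abs_of_pos hM0, div_le_iff₀ hM0]
  exact abs_le.2 ⟨by linarith, by linarith⟩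

/-- **The end of a chain.** -/
theorem chain_w (hC : ConH p L z y t D X x u φ a v M K e η c) (hM : 1 ≤ M) {w : W4 Ω}
    (hw : 0 < Q4 p L z w) :
    (|s0 M t w| ≤ 2 ∧ |s1 M t w| ≤ 2 ∧ |s2 M t w| ≤ 2 ∧ |s3 M t w| ≤ 2) ∧
    Bx (4 * (K / M)) (x (z (eB3 w)) - x (z (eA0 w)) - (s0 M t w • dX L D X (eA0 w) +
      s1 M t w • dX L D X (eA1 w) + s2 M t w • dX L D X (eA2 w) +
      s3 M t w • dX L D X (eA3 w))) ∧
    |u (z (eB3 w)) - u (z (eA0 w)) - (φ (y (eA0 w)) (x (z (eB3 w))) -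
      φ (y (eA0 w)) (x (z (eA0 w)))) - ar (a (y (eA0 w))) (x (z (eA0 w)))
        (x (z (eB3 w)) - x (z (eA0 w))) -
      Sa (a (y (eA0 w))) (dX L D X (eA0 w)) (dX L D X (eA1 w)) (dX L D X (eA2 w))
        (dX L D X (eA3 w)) (s0 M t w) (s1 M t w) (s2 M t w) (s3 M t w)| ≤ 100 * (K / M) := by
  obtain ⟨⟨a1, a2, a3, a4, a5, a6, a7, a8⟩, ⟨b1, b2, b3, b4⟩, ⟨d1, d2, d3⟩⟩ :=
    q4_pos hC.law L z hw
  obtain ⟨⟨t1, t2, t3⟩, y1, y2, y3, y4⟩ := t_det hC hw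
  have e0 : |s0 M t w| ≤ 2 := st_le hM (hC.tM _ a2) (hC.tM _ a1)
  have e1 : |s1 M t w| ≤ 2 := st_le hM (hC.tM _ a4) (hC.tM _ a2)
  have e2 : |s2 M t w| ≤ 2 := st_le hM (hC.tM _ a6) (hC.tM _ a4)
  have e3 : |s3 M t w| ≤ 2 := st_le hM (hC.tM _ a8) (hC.tM _ a6)
  refine ⟨⟨e0, e1, e2, e3⟩, ?_⟩
  have p0 := hC.pos _ _ a1 a2 b1
  have p1 := hC.pos _ _ a3 a4 b2
  have p2 := hC.pos _ _ a5 a6 b3
  have p3 := hC.pos _ _ a7 a8 b4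
  have k0 := hC.con _ _ a1 a2 b1
  have k1 := hC.con _ _ a3 a4 b2
  have k2 := hC.con _ _ a5 a6 b3
  have k3 := hC.con _ _ a7 a8 b4
  rw [d1, t1] at p1 k1
  rw [d2, t2] at p2 k2
  rw [d3, t3] at p3 k3
  rw [y1] at k1
  rw [y2] at k2
  rw [y3] at k3
  exact chain_end (hC.a1 _) (hC.X1 _) (hC.X1 _) (hC.X1 _) (hC.X1 _) (hC.x1 _) e0 e1 e2 e3
    p0 p1 p2 p3 k0 k1 k2 k3

/-- **Two chains.** -/
theorem two_w (hC : ConH p L z y t D X x u φ a v M K e η c) (hM : 1 ≤ M) (hK : 1 ≤ K)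
    (hη : 0 < η) (hη1 : η ≤ 1) {w w' : W4 Ω} (hw : 0 < Q4 p L z w) (hw' : 0 < Q4 p L z w')
    (hG : GG L D X y a η w) (hg : gw L z D w = gw L z D w')
    (h1 : cv M (x (z (eB3 w))) = cv M (x (z (eB3 w'))))
    (h2 : ⌊(M : ℝ) * u (z (eB3 w))⌋ = ⌊(M : ℝ) * u (z (eB3 w'))⌋) :
    (∃ r : Fin 3 → ℝ, (∀ i, |r i| ≤ 54 * (K / M) / η ^ 3) ∧
      s0 M t w - s0 M t w' + (s3 M t w - s3 M t w') * sol ![dX L D X (eA0 w),
        dX L D X (eA1 w), dX L D X (eA2 w)] (dX L D X (eA3 w)) 0 = r 0 ∧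
      s1 M t w - s1 M t w' + (s3 M t w - s3 M t w') * sol ![dX L D X (eA0 w),
        dX L D X (eA1 w), dX L D X (eA2 w)] (dX L D X (eA3 w)) 1 = r 1 ∧
      s2 M t w - s2 M t w' + (s3 M t w - s3 M t w') * sol ![dX L D X (eA0 w),
        dX L D X (eA1 w), dX L D X (eA2 w)] (dX L D X (eA3 w)) 2 = r 2) ∧
    |(s3 M t w - s3 M t w') * ((Jg M X a (gy L z y D w) (t (eB0 w)) (t (eB1 w)) (t (eB2 w)) +
      Jg M X a (gy L z y D w') (t (eB0 w')) (t (eB1 w')) (t (eB2 w'))) / 2)| ≤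
        6100 * (K / M) / η ^ 3 := by
  have hM0 : (0 : ℝ) < M := by exact_mod_cast hM
  have hκ : 1 / (M : ℝ) ≤ K / M := div_le_div_of_nonneg_right hK hM0.le
  have hη3 : 0 < η ^ 3 := by positivity
  have hη31 : η ^ 3 ≤ 1 := pow_le_one₀ hη.le hη1
  obtain ⟨κ, hκd⟩ : ∃ κ, κ = K / (M : ℝ) := ⟨_, rfl⟩
  have hκ0 : 0 < κ := by rw [hκd]; positivity
  obtain ⟨⟨a1, _, _, _, _, _, _, a8⟩, _⟩ := q4_pos hC.law L z hw
  obtain ⟨⟨a1', _, _, _, _, _, _, a8'⟩, _⟩ := q4_pos hC.law L z hw'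
  obtain ⟨⟨e0, e1, e2, e3⟩, P, U⟩ := chain_w hC hM hw
  obtain ⟨⟨e0', e1', e2', e3'⟩, P', U'⟩ := chain_w hC hM hw'
  -- the same data
  have hg1 := Prod.ext_iff.1 hg
  have hz : z (eA0 w) = z (eA0 w') := hg1.1
  have hg2 := Prod.ext_iff.1 hg1.2
  have hD0 : dX L D X (eA0 w) = dX L D X (eA0 w') := congrArg X hg2.1
  have hg3 := Prod.ext_iff.1 hg2.2
  have hD1 : dX L D X (eA1 w) = dX L D X (eA1 w') := congrArg X hg3.1
  have hg4 := Prod.ext_iff.1 hg3.2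
  have hD2 : dX L D X (eA2 w) = dX L D X (eA2 w') := congrArg X hg4.1
  have hD3 : dX L D X (eA3 w) = dX L D X (eA3 w') := congrArg X hg4.2
  have hy : y (eA0 w) = y (eA0 w') := hC.yz _ _ a1 a1' hz
  rw [← hz, ← hD0, ← hD1, ← hD2, ← hD3] at P' U'
  rw [← hy] at U'
  obtain ⟨X0, hX0⟩ : ∃ X0, X0 = dX L D X (eA0 w) := ⟨_, rfl⟩
  obtain ⟨X1, hX1⟩ : ∃ X1, X1 = dX L D X (eA1 w) := ⟨_, rfl⟩
  obtain ⟨X2, hX2⟩ : ∃ X2, X2 = dX L D X (eA2 w) := ⟨_, rfl⟩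
  obtain ⟨X3, hX3⟩ : ∃ X3, X3 = dX L D X (eA3 w) := ⟨_, rfl⟩
  have B0 : Bx 1 X0 := by rw [hX0]; exact hC.X1 _
  have B1 : Bx 1 X1 := by rw [hX1]; exact hC.X1 _
  have B2 : Bx 1 X2 := by rw [hX2]; exact hC.X1 _
  have B3 : Bx 1 X3 := by rw [hX3]; exact hC.X1 _
  obtain ⟨g1, g2, g3, _⟩ := hG
  have hdet := good_det hη g1 g2 g3
  rw [← hX0, ← hX1, ← hX2] at hdet
  rw [← hX0, ← hX1, ← hX2, ← hX3] at P U P' U' ⊢
  have hd0 : (mt ![X0, X1, X2]).det ≠ 0 := by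
    intro h0
    rw [h0, abs_zero] at hdet
    linarith
  obtain ⟨A, hA⟩ : ∃ A, A = a (y (eA0 w)) := ⟨_, rfl⟩
  have hA1 : Bx 1 A := by rw [hA]; exact hC.a1 _
  rw [← hκd] at P U P' U' hκ ⊢
  -- the ends are near
  have hx4 : Bx (1 / M) (x (z (eB3 w)) - x (z (eB3 w'))) := by
    intro i
    have c1 := congrFun h1 i
    unfold cv at c1
    have c1' : (⌊(M : ℝ) * x (z (eB3 w)) i⌋ : ℝ) = ⌊(M : ℝ) * x (z (eB3 w')) i⌋ := by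
      exact_mod_cast c1
    have f1 := Int.floor_le ((M : ℝ) * x (z (eB3 w)) i)
    have f2 := Int.lt_floor_add_one ((M : ℝ) * x (z (eB3 w)) i)
    have f3 := Int.floor_le ((M : ℝ) * x (z (eB3 w')) i)
    have f4 := Int.lt_floor_add_one ((M : ℝ) * x (z (eB3 w')) i)
    rw [Pi.sub_apply]
    have h5 : |(M : ℝ) * (x (z (eB3 w)) i - x (z (eB3 w')) i)| ≤ 1 :=
      abs_le.2 ⟨by linarith, by linarith⟩
    rw [abs_mul, abs_of_pos hM0] at h5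
    rw [le_div_iff₀ hM0]
    linarith
  have hu4 : |u (z (eB3 w)) - u (z (eB3 w'))| ≤ 1 / M := by
    have c1' : (⌊(M : ℝ) * u (z (eB3 w))⌋ : ℝ) = ⌊(M : ℝ) * u (z (eB3 w'))⌋ := by
      exact_mod_cast h2
    have f1 := Int.floor_le ((M : ℝ) * u (z (eB3 w)))
    have f2 := Int.lt_floor_add_one ((M : ℝ) * u (z (eB3 w)))
    have f3 := Int.floor_le ((M : ℝ) * u (z (eB3 w')))
    have f4 := Int.lt_floor_add_one ((M : ℝ) * u (z (eB3 w')))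
    have h5 : |(M : ℝ) * (u (z (eB3 w)) - u (z (eB3 w')))| ≤ 1 :=
      abs_le.2 ⟨by linarith, by linarith⟩
    rw [abs_mul, abs_of_pos hM0] at h5
    rw [le_div_iff₀ hM0]
    linarith
  have hφ := hC.φK _ a1 (x (z (eB3 w))) (x (z (eB3 w'))) (hC.x1 _) (hC.x1 _) _ hx4
  have hφ' : |φ (y (eA0 w)) (x (z (eB3 w))) - φ (y (eA0 w)) (x (z (eB3 w')))| ≤ κ := by
    refine hφ.trans (le_of_eq ?_)
    rw [hκd]
    ring
  have har := ar_le hA1 (hC.x1 (z (eA0 w))) hx4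
  have har' : |ar A (x (z (eA0 w))) (x (z (eB3 w)) - x (z (eB3 w')))| ≤ 6 * κ := by
    refine har.trans ?_
    rw [one_mul]
    linarith
  rw [← hA] at U U'
  -- the sums of the steps
  have hsum : Bx (9 * κ) (s0 M t w • X0 + s1 M t w • X1 + s2 M t w • X2 + s3 M t w • X3 -
      (s0 M t w' • X0 + s1 M t w' • X1 + s2 M t w' • X2 + s3 M t w' • X3)) := by
    intro i
    have q1 := abs_le.1 (P i)
    have q2 := abs_le.1 (P' i)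
    have q3 := abs_le.1 (hx4 i)
    simp only [Pi.sub_apply, Pi.add_apply, Pi.smul_apply, smul_eq_mul] at q1 q2 q3 ⊢
    exact abs_le.2 ⟨by linarith [q1.1, q1.2, q2.1, q2.2, q3.1, q3.2],
      by linarith [q1.1, q1.2, q2.1, q2.2, q3.1, q3.2]⟩
  obtain ⟨r, hr, r0, r1, r2⟩ := two_steps (X3 := X3) B0 B1 B2 hη3 hdet hsum
  have hr' : ∀ i, |r i| ≤ 54 * κ / η ^ 3 := fun i => (hr i).trans (le_of_eq (by ring))
  refine ⟨⟨r, hr', r0, r1, r2⟩, ?_⟩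
  have hS := Sa_sub hA1 B0 B1 B2 B3 (sol3 (X3 := X3) hd0) e0 e1 e2 e3 e0' e1' e2' e3' r0 r1 r2
    (hr' 0) (hr' 1) (hr' 2)
  -- the difference of the areas
  have hdS : |Sa A X0 X1 X2 X3 (s0 M t w) (s1 M t w) (s2 M t w) (s3 M t w) -
      Sa A X0 X1 X2 X3 (s0 M t w') (s1 M t w') (s2 M t w') (s3 M t w')| ≤ 208 * κ := by
    have q1 := abs_le.1 U
    have q2 := abs_le.1 U'
    have q3 := abs_le.1 hu4
    have q4 := abs_le.1 hφ'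
    have q5 := abs_le.1 har'
    have e5 : ar A (x (z (eA0 w))) (x (z (eB3 w)) - x (z (eB3 w'))) =
        ar A (x (z (eA0 w))) (x (z (eB3 w)) - x (z (eA0 w))) -
        ar A (x (z (eA0 w))) (x (z (eB3 w')) - x (z (eA0 w))) := by
      rw [← ar_sub]
      congr 1
      abel
    rw [e5] at q5
    exact abs_le.2 ⟨by linarith [q1.1, q1.2, q2.1, q2.2, q3.1, q3.2, q4.1, q4.2, q5.1, q5.2],
      by linarith [q1.1, q1.2, q2.1, q2.2, q3.1, q3.2, q4.1, q4.2, q5.1, q5.2]⟩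
  have eJ : Jg M X a (gy L z y D w) (t (eB0 w)) (t (eB1 w)) (t (eB2 w)) =
      Jf A X0 X1 X2 (sol ![X0, X1, X2] X3 0) (sol ![X0, X1, X2] X3 1) (s1 M t w) (s2 M t w) := by
    rw [hA, hX0, hX1, hX2, hX3]
    rfl
  have eJ' : Jg M X a (gy L z y D w') (t (eB0 w')) (t (eB1 w')) (t (eB2 w')) =
      Jf A X0 X1 X2 (sol ![X0, X1, X2] X3 0) (sol ![X0, X1, X2] X3 1) (s1 M t w')
        (s2 M t w') := by
    rw [hA, hX0, hX1, hX2, hX3, hy, hD0, hD1, hD2, hD3]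
    rfl
  rw [eJ, eJ']
  obtain ⟨j1, j2⟩ := abs_le.1 hS
  obtain ⟨j3, j4⟩ := abs_le.1 hdS
  have hkη : κ ≤ κ / η ^ 3 := by
    rw [le_div_iff₀ hη3]
    nlinarith
  have e6 : 54 * κ / η ^ 3 = 54 * (κ / η ^ 3) := by ring
  have e7 : 6100 * κ / η ^ 3 = 6100 * (κ / η ^ 3) := by ring
  rw [e7]
  rw [e6] at j1 j2
  exact abs_le.2 ⟨by linarith, by linarith⟩

end

end Pool.CFF
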